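import Pool.Agent.Helper2_Pack.StmtsA

/-! # L1: the gates express the formula -/

namespace Pool.Agent.Helper55_Pack

open Pool.Agent.Helper2_Pack
open Pool.Agent.Helper53_Closed (Formula Sym encInst Term Rel bitWord)

/-! ### The gates of a position -/

/-- the gates of the position `p` with letter `a` hold -/
def PosHolds (z : ℕ → ℝ) (L p : ℕ) (a : Sym) : Prop :=
  (∀ d, d ≤ L → (stackGate L p a d).Holds z) ∧ (∀ k, k ≤ L → (regGate L p a k).Holds z) ∧
    ∀ g ∈ extra L p a, g.Holds z

theorem posGates_iff (z : ℕ → ℝ) (L p : ℕ) (a : Sym) :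
    (∀ t ∈ posGates L p a, t.2.Holds z) ↔ PosHolds z L p a := by
  unfold posGates PosHolds
  simp only [List.forall_mem_append, List.forall_mem_map, List.mem_range, Nat.lt_succ_iff]
  rw [and_assoc]
  refine and_congr Iff.rfl (and_congr Iff.rfl ?_)
  constructor
  · intro h g hg
    obtain ⟨i, hi⟩ := List.getElem?_of_mem hg
    exact h (g, i) (List.mk_mem_zipIdx_iff_getElem?.mpr hi)
  · intro h x hx
    exact h x.1 (List.fst_mem_of_mem_zipIdx hx)

theorem tagged_iff (w : List Sym) (z : ℕ → ℝ) : (∀ t ∈ tagged w, t.2.Holds z) ↔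
    (z (nO w.length) = 0 ∧ z (nE w.length) = 1 ∧
      z (nS w.length 0 0) = z (nE w.length) + z (nO w.length)) ∧
    ∀ w0 a w2, w = w0 ++ a :: w2 → PosHolds z w.length w0.length a := by
  unfold tagged
  simp only [List.forall_mem_append, List.forall_mem_cons, List.not_mem_nil, false_imp_iff,
    implies_true, and_true]
  refine and_congr ?_ ?_
  · simp [Gate.Holds, cp]
  · constructor
    · intro h w0 a w2 hw
      rw [← posGates_iff]
      intro t ht
      apply h t
      rw [List.mem_flatMap]
      refine ⟨(a, w0.length), ?_, ht⟩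
      rw [List.mk_mem_zipIdx_iff_getElem?, hw]
      simp
    · intro h t ht
      rw [List.mem_flatMap] at ht
      obtain ⟨⟨a, p⟩, hx, ht⟩ := ht
      rw [List.mk_mem_zipIdx_iff_getElem?] at hx
      obtain ⟨hp, hpa⟩ := List.getElem?_eq_some_iff.mp hx
      have hw : w = w.take p ++ a :: w.drop (p + 1) := by
        rw [← hpa, List.cons_getElem_drop_succ, List.take_append_drop]
      have := h _ _ _ hw
      rw [List.length_take, min_eq_left hp.le, ← posGates_iff] at this
      exact this t ht

/-! ### Soundness -/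

section sound

variable {z : ℕ → ℝ} {w : List Sym} {L : ℕ}

/-- all gates of the positions hold -/
structure Good (z : ℕ → ℝ) (w : List Sym) (L : ℕ) : Prop where
  len : w.length = L
  zero : z (nO L) = 0
  one : z (nE L) = 1
  pos : ∀ w0 a w2, w = w0 ++ a :: w2 → PosHolds z L w0.length a

theorem cp_holds (h : Good z w L) {i j : ℕ} : (cp L i j).Holds z ↔ z i = z j := by
  simp only [cp, Gate.Holds]
  rw [h.zero, add_zero]

/-- the letters which do not change the stack -/
def Quiet (a : Sym) : Prop := a = .plus ∨ a = .minus ∨ a = .zero ∨ a = .one ∨ a = .tick ∨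
  a = .stop ∨ a = .fin

theorem quiet_stack (h : Good z w L) {w0 w2 : List Sym} {a : Sym} (hw : w = w0 ++ a :: w2)
    (ha : Quiet a) {d : ℕ} (hd : d ≤ L) :
    z (nS L w0.length d) = z (nS L (w0.length + 1) d) := by
  have h1 := (h.pos w0 a w2 hw).1 d hd
  rcases ha with rfl | rfl | rfl | rfl | rfl | rfl | rfl <;>
    exact (cp_holds h).mp h1

theorem ticks (h : Good z w L) (i : ℕ) : ∀ w0 w1, w = w0 ++ (List.replicate i .tick ++ w1) →
    (∀ d, d ≤ L → z (nS L w0.length d) = z (nS L (w0.length + i) d)) ∧
    ∀ k, k + i ≤ L → z (nT L w0.length k) = z (nT L (w0.length + i) (k + i)) := by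
  induction i with
  | zero =>
    intro w0 w1 _
    exact ⟨fun d _ => rfl, fun k _ => rfl⟩
  | succ i ih =>
    intro w0 w1 hw
    rw [List.replicate_succ, List.cons_append] at hw
    have hw' : w = (w0 ++ [.tick]) ++ (List.replicate i .tick ++ w1) := by
      rw [hw]
      simp
    obtain ⟨h1, h2⟩ := ih _ _ hw'
    have hl : (w0 ++ [Sym.tick]).length = w0.length + 1 := by simp
    rw [hl] at h1 h2
    constructor
    · intro d hd
      rw [quiet_stack h hw (by unfold Quiet; simp) hd, h1 d hd]
      congr 2
      omega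
    · intro k hk
      have h3 := (h.pos _ _ _ hw).2.1 k (by omega)
      simp only [regGate] at h3
      rw [if_pos (by omega : k < L)] at h3
      rw [(cp_holds h).mp h3, h2 (k + 1) (by omega)]
      congr 1
      unfold nT
      rw [show w0.length + 1 + i = w0.length + (i + 1) by omega,
        show k + 1 + i = k + (i + 1) by omega]

theorem stop_pos (h : Good z w L) {w0 w2 : List Sym} (hw : w = w0 ++ .stop :: w2) :
    (∀ k, k ≤ L → z (nT L w0.length k) = z (nX L k)) ∧ z (nB L w0.length) = 0 := by
  obtain ⟨_, h2, h3⟩ := h.pos _ _ _ hw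
  constructor
  · intro k hk
    exact (cp_holds h).mp (h2 k hk)
  · have := h3 (cp L (nB L w0.length) (nO L)) (by simp [extra])
    rw [cp_holds h, h.zero] at this
    exact this

theorem digits (h : Good z w L) (l : List ℕ) (hl : ∀ d ∈ l, d < 2) : ∀ w0 w2,
    w = w0 ++ (l.map (fun d => if d = 0 then Sym.zero else Sym.one) ++ .stop :: w2) →
    (∀ d, d ≤ L → z (nS L w0.length d) = z (nS L (w0.length + l.length) d)) ∧
    z (nB L w0.length) = (Nat.ofDigits 2 l : ℕ) := by
  induction l with
  | nil =>
    intro w0 w2 hw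
    refine ⟨fun d _ => rfl, ?_⟩
    rw [(stop_pos h hw).2]
    simp [Nat.ofDigits]
  | cons c l ih =>
    intro w0 w2 hw
    rw [List.map_cons, List.cons_append] at hw
    have hc := hl c (by simp)
    set a := (if c = 0 then Sym.zero else Sym.one) with ha
    have hw' : w = (w0 ++ [a]) ++
        (l.map (fun d => if d = 0 then Sym.zero else Sym.one) ++ .stop :: w2) := by
      rw [hw]
      simp
    obtain ⟨h1, h2⟩ := ih (fun d hd => hl d (by simp [hd])) _ _ hw'
    have hlen : (w0 ++ [a]).length = w0.length + 1 := by simp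
    rw [hlen] at h1 h2
    have hq : Quiet a := by
      unfold Quiet
      rw [ha]
      split_ifs <;> simp
    constructor
    · intro d hd
      rw [quiet_stack h hw hq hd, h1 d hd, List.length_cons]
      congr 2
      omega
    · obtain ⟨_, _, h3⟩ := h.pos _ _ _ hw
      rw [Nat.ofDigits_cons]
      rcases (by omega : c = 0 ∨ c = 1) with hc0 | hc1
      · have ha0 : a = .zero := by rw [ha, if_pos hc0]
        rw [ha0] at h3
        have h4 := h3 (.add (nB L w0.length) (nB L (w0.length + 1)) (nB L (w0.length + 1)))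
          (by simp [extra])
        simp only [Gate.Holds] at h4
        rw [h4, h2, hc0]
        push_cast
        ring
      · have ha0 : a = .one := by rw [ha, if_neg (by omega)]
        rw [ha0] at h3
        have h4 := h3 (.add (nA L w0.length 0) (nB L (w0.length + 1)) (nB L (w0.length + 1)))
          (by simp [extra])
        have h5 := h3 (.add (nB L w0.length) (nA L w0.length 0) (nE L)) (by simp [extra])
        simp only [Gate.Holds] at h4 h5
        rw [h5, h4, h2, h.one, hc1]
        push_cast
        ring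

/-- the values of the variables of the formula -/
def xval (z : ℕ → ℝ) (L n : ℕ) : Fin n → ℝ := fun i => z (nX L i)

theorem term_sound (h : Good z w L) {n : ℕ} (hn : n ≤ L) (t : Term n) : ∀ w0 w1,
    w = w0 ++ (t.enc ++ w1) →
    z (nS L w0.length 0) = t.eval (xval z L n) ∧
    ∀ d, 1 ≤ d → d ≤ w0.length →
      z (nS L w0.length d) = z (nS L (w0.length + t.enc.length) (d - 1)) := by
  have hlt : ∀ {w0 w2 : List Sym} {a : Sym}, w = w0 ++ a :: w2 → w0.length < L := by
    intro w0 w2 a hw
    rw [← h.len, hw]
    simp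
  induction t with
  | var i =>
    intro w0 w1 hw
    simp only [Term.enc, List.cons_append, List.append_assoc, List.nil_append] at hw
    have hp := hlt hw
    have hw' : w = (w0 ++ [.var]) ++ (List.replicate i.val .tick ++ .stop :: w1) := by
      rw [hw]
      simp
    obtain ⟨h1, h2⟩ := ticks h _ _ _ hw'
    have hl : (w0 ++ [Sym.var]).length = w0.length + 1 := by simp
    rw [hl] at h1 h2
    have hw'' : w = (w0 ++ [.var] ++ List.replicate i.val .tick) ++ .stop :: w1 := by
      rw [hw]
      simp
    obtain ⟨h3, _⟩ := stop_pos h hw''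
    have h4 : ∀ d, d ≤ L → _ := fun d hd => quiet_stack h hw'' (by unfold Quiet; simp) hd
    have hl2 : (w0 ++ [Sym.var] ++ List.replicate i.val Sym.tick).length =
        w0.length + 1 + i.val := by
      simp
      omega
    rw [hl2] at h3 h4
    obtain ⟨g1, _, g3⟩ := h.pos _ _ _ hw
    constructor
    · have := g3 (cp L (nS L w0.length 0) (nT L (w0.length + 1) 0)) (by simp [extra])
      rw [(cp_holds h).mp this, h2 0 (by omega), zero_add, h3 _ (by omega)]
      rfl
    · intro d hd1 hd2
      have := g1 (d - 1) (by omega)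
      simp only [stackGate] at this
      rw [if_pos (by omega : d - 1 < L), cp_holds h, show d - 1 + 1 = d by omega] at this
      rw [this, h1 _ (by omega), h4 _ (by omega)]
      congr 2
      simp [Term.enc]
      omega
  | const c =>
    intro w0 w1 hw
    simp only [Term.enc, List.cons_append, List.append_assoc, List.nil_append] at hw
    have hp := hlt hw
    set s := (if c < 0 then Sym.minus else Sym.plus) with hs
    have hw1 : w = (w0 ++ [.const]) ++ s :: (bitWord c.natAbs ++ .stop :: w1) := by
      rw [hw]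
      simp
    have hw2 : w = (w0 ++ [.const] ++ [s]) ++ (bitWord c.natAbs ++ .stop :: w1) := by
      rw [hw]
      simp
    obtain ⟨h1, h2⟩ := digits h (Nat.digits 2 c.natAbs)
      (fun d hd => Nat.digits_lt_base (by norm_num) hd) _ _ hw2
    have hw3 : w = (w0 ++ [.const] ++ [s] ++ bitWord c.natAbs) ++ .stop :: w1 := by
      rw [hw]
      simp
    have hl2 : (w0 ++ [Sym.const] ++ [s]).length = w0.length + 2 := by simp
    have hlb : (bitWord c.natAbs).length = (Nat.digits 2 c.natAbs).length := by
      unfold bitWord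
      simp
    have hl3 : (w0 ++ [Sym.const] ++ [s] ++ bitWord c.natAbs).length =
        w0.length + 2 + (Nat.digits 2 c.natAbs).length := by
      rw [List.length_append, hl2, hlb]
    have hl1 : (w0 ++ [Sym.const]).length = w0.length + 1 := by simp
    rw [hl2] at h1 h2
    rw [Nat.ofDigits_digits] at h2
    have hq : Quiet s := by
      unfold Quiet
      rw [hs]
      split_ifs <;> simp
    have h4 : ∀ d, d ≤ L → _ := fun d hd => quiet_stack h hw3 (by unfold Quiet; simp) hd
    have h5 : ∀ d, d ≤ L → _ := fun d hd => quiet_stack h hw1 hq hd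
    rw [hl3] at h4
    rw [hl1] at h5
    obtain ⟨g1, _, g3⟩ := h.pos _ _ _ hw
    obtain ⟨_, _, k3⟩ := h.pos _ _ _ hw1
    rw [hl1] at k3
    constructor
    · have := g3 (cp L (nS L w0.length 0) (nB L (w0.length + 1))) (by simp [extra])
      rw [(cp_holds h).mp this]
      simp only [Term.eval]
      by_cases hc : c < 0
      · have hs' : s = .minus := by rw [hs, if_pos hc]
        rw [hs'] at k3
        have k4 := k3 (.add (nO L) (nB L (w0.length + 1)) (nB L (w0.length + 1 + 1)))
          (by simp [extra])
        simp only [Gate.Holds] at k4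
        rw [h.zero, show w0.length + 1 + 1 = w0.length + 2 by omega, h2] at k4
        have e : (c : ℝ) = -(c.natAbs : ℝ) := by
          have h' : c = -(c.natAbs : ℤ) := by omega
          calc (c : ℝ) = ((-(c.natAbs : ℤ) : ℤ) : ℝ) := by rw [← h']
            _ = -(c.natAbs : ℝ) := by rw [Int.cast_neg, Int.cast_natCast]
        rw [e]
        linarith
      · have hs' : s = .plus := by rw [hs, if_neg hc]
        rw [hs'] at k3
        have k4 := k3 (cp L (nB L (w0.length + 1)) (nB L (w0.length + 1 + 1)))
          (by simp [extra])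
        rw [cp_holds h, show w0.length + 1 + 1 = w0.length + 2 by omega, h2] at k4
        have e : (c : ℝ) = (c.natAbs : ℝ) := by
          have h' : c = (c.natAbs : ℤ) := by omega
          calc (c : ℝ) = (((c.natAbs : ℤ) : ℤ) : ℝ) := by rw [← h']
            _ = (c.natAbs : ℝ) := by rw [Int.cast_natCast]
        rw [e]
        linarith
    · intro d hd1 hd2
      have := g1 (d - 1) (by omega)
      simp only [stackGate] at this
      rw [if_pos (by omega : d - 1 < L), cp_holds h, show d - 1 + 1 = d by omega] at this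
      rw [this, h5 _ (by omega), show w0.length + 1 + 1 = w0.length + 2 by omega,
        h1 _ (by omega), h4 _ (by omega)]
      congr 2
      simp [Term.enc, hlb]
      omega
  | add s t ihs iht =>
    intro w0 w1 hw
    simp only [Term.enc, List.cons_append, List.append_assoc] at hw
    have hp := hlt hw
    have hw1 : w = (w0 ++ [.add]) ++ (s.enc ++ (t.enc ++ w1)) := by
      rw [hw]
      simp
    have hw2 : w = (w0 ++ [.add] ++ s.enc) ++ (t.enc ++ w1) := by
      rw [hw]
      simp
    obtain ⟨a1, a2⟩ := ihs _ _ hw1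
    obtain ⟨b1, b2⟩ := iht _ _ hw2
    have hl1 : (w0 ++ [Sym.add]).length = w0.length + 1 := by simp
    have hl2 : (w0 ++ [Sym.add] ++ s.enc).length = w0.length + 1 + s.enc.length := by
      simp
      omega
    rw [hl1] at a1 a2
    rw [hl2] at b1 b2
    obtain ⟨g1, _, g3⟩ := h.pos _ _ _ hw
    constructor
    · have := g3 (.add (nS L w0.length 0) (nS L (w0.length + 1) 0) (nS L (w0.length + 1) 1))
        (by simp [extra])
      simp only [Gate.Holds] at this
      rw [this, a1, a2 1 le_rfl (by omega), Nat.sub_self, b1]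
      rfl
    · intro d hd1 hd2
      have := g1 d (by omega)
      simp only [stackGate] at this
      rw [if_pos ⟨hd1, by omega⟩, cp_holds h] at this
      rw [this, a2 _ (by omega) (by omega), Nat.add_sub_cancel, b2 _ hd1 (by omega)]
      congr 2
      simp [Term.enc]
      omega
  | mul s t ihs iht =>
    intro w0 w1 hw
    simp only [Term.enc, List.cons_append, List.append_assoc] at hw
    have hp := hlt hw
    have hw1 : w = (w0 ++ [.mul]) ++ (s.enc ++ (t.enc ++ w1)) := by
      rw [hw]
      simp
    have hw2 : w = (w0 ++ [.mul] ++ s.enc) ++ (t.enc ++ w1) := by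
      rw [hw]
      simp
    obtain ⟨a1, a2⟩ := ihs _ _ hw1
    obtain ⟨b1, b2⟩ := iht _ _ hw2
    have hl1 : (w0 ++ [Sym.mul]).length = w0.length + 1 := by simp
    have hl2 : (w0 ++ [Sym.mul] ++ s.enc).length = w0.length + 1 + s.enc.length := by
      simp
      omega
    rw [hl1] at a1 a2
    rw [hl2] at b1 b2
    obtain ⟨g1, _, g3⟩ := h.pos _ _ _ hw
    constructor
    · have := g3 (.mul (nS L w0.length 0) (nS L (w0.length + 1) 0) (nS L (w0.length + 1) 1))
        (by simp [extra])
      simp only [Gate.Holds] at this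
      rw [this, a1, a2 1 le_rfl (by omega), Nat.sub_self, b1]
      rfl
    · intro d hd1 hd2
      have := g1 d (by omega)
      simp only [stackGate] at this
      rw [if_pos ⟨hd1, by omega⟩, cp_holds h] at this
      rw [this, a2 _ (by omega) (by omega), Nat.add_sub_cancel, b2 _ hd1 (by omega)]
      congr 2
      simp [Term.enc]
      omega

open Classical in
/-- truth value -/
noncomputable def tv (P : Prop) : ℝ := if P then 1 else 0

theorem tv_true {P : Prop} (h : P) : tv P = 1 := by
  unfold tv
  rw [if_pos h]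

theorem tv_false {P : Prop} (h : ¬ P) : tv P = 0 := by
  unfold tv
  rw [if_neg h]

theorem formula_sound (h : Good z w L) {n : ℕ} (hn : n ≤ L) (φ : Formula n) : ∀ w0 w1,
    w = w0 ++ (φ.enc ++ w1) →
    z (nS L w0.length 0) = tv (φ.Holds (xval z L n)) ∧
    ∀ d, 1 ≤ d → d ≤ w0.length →
      z (nS L w0.length d) = z (nS L (w0.length + φ.enc.length) (d - 1)) := by
  have hlt : ∀ {w0 w2 : List Sym} {a : Sym}, w = w0 ++ a :: w2 → w0.length < L := by
    intro w0 w2 a hw
    rw [← h.len, hw]
    simp
  induction φ with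
  | atom r f =>
    intro w0 w1 hw
    simp only [Formula.enc, List.cons_append, List.append_assoc, List.nil_append] at hw
    have hp := hlt hw
    have hw1 : w = (w0 ++ [r.sym]) ++ (f.enc ++ .fin :: w1) := by
      rw [hw]
      simp
    have hw2 : w = (w0 ++ [r.sym] ++ f.enc) ++ .fin :: w1 := by
      rw [hw]
      simp
    obtain ⟨a1, a2⟩ := term_sound h hn f _ _ hw1
    have h4 : ∀ d, d ≤ L → _ := fun d hd => quiet_stack h hw2 (by unfold Quiet; simp) hd
    have hl1 : (w0 ++ [r.sym]).length = w0.length + 1 := by simp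
    have hl2 : (w0 ++ [r.sym] ++ f.enc).length = w0.length + 1 + f.enc.length := by
      simp
      omega
    rw [hl1] at a1 a2
    rw [hl2] at h4
    obtain ⟨g1, _, g3⟩ := h.pos _ _ _ hw
    constructor
    · simp only [Formula.Holds]
      set y := z (nS L w0.length 0) with hy
      set F := f.eval (xval z L n) with hF
      cases r with
      | eq =>
        have k1 := g3 (.mul (nS L w0.length 0) (nS L w0.length 0) (nS L w0.length 0))
          (by simp [extra, Rel.sym])
        have k2 := g3 (.mul (nA L w0.length 2) (nS L (w0.length + 1) 0) (nA L w0.length 0))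
          (by simp [extra, Rel.sym])
        have k3 := g3 (.add (nA L w0.length 2) (nA L w0.length 3) (nE L))
          (by simp [extra, Rel.sym])
        have k4 := g3 (.add (nE L) (nA L w0.length 4) (nS L w0.length 0))
          (by simp [extra, Rel.sym])
        have k5 := g3 (.mul (nA L w0.length 5) (nS L w0.length 0) (nS L (w0.length + 1) 0))
          (by simp [extra, Rel.sym])
        have k6 := g3 (.mul (nA L w0.length 6) (nA L w0.length 4) (nA L w0.length 3))
          (by simp [extra, Rel.sym])
        have k7 := g3 (.add (nO L) (nA L w0.length 5) (nA L w0.length 6))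
          (by simp [extra, Rel.sym])
        simp only [Gate.Holds] at k1 k2 k3 k4 k5 k6 k7
        rw [a1] at k2 k5
        rw [h.one] at k3 k4
        rw [h.zero] at k7
        rw [← hy] at k1 k4 k5
        have hy01 : y = 0 ∨ y = 1 := by
          have : y * (y - 1) = 0 := by linarith
          rcases mul_eq_zero.mp this with h' | h'
          · exact Or.inl h'
          · exact Or.inr (by linarith)
        rcases hy01 with hy0 | hy1
        · rw [hy0]
          rw [hy0] at k4 k5
          have e4 : z (nA L w0.length 4) = 1 := by linarith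
          rw [e4] at k6
          rw [tv_false]
          intro hF0
          simp only [Rel.Holds] at hF0
          rw [hF0] at k2
          linarith
        · rw [hy1]
          rw [hy1] at k4 k5
          have e4 : z (nA L w0.length 4) = 0 := by linarith
          rw [e4] at k6
          rw [tv_true]
          simp only [Rel.Holds]
          linarith
      | gt =>
        have k1 := g3 (.mul (nS L w0.length 0) (nS L w0.length 0) (nS L w0.length 0))
          (by simp [extra, Rel.sym])
        have k1' := g3 (.mul (nA L w0.length 1) (nA L w0.length 0) (nA L w0.length 0))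
          (by simp [extra, Rel.sym])
        have k2 := g3 (.mul (nA L w0.length 2) (nS L (w0.length + 1) 0) (nA L w0.length 1))
          (by simp [extra, Rel.sym])
        have k3 := g3 (.add (nA L w0.length 2) (nA L w0.length 3) (nE L))
          (by simp [extra, Rel.sym])
        have k4 := g3 (.add (nE L) (nA L w0.length 4) (nS L w0.length 0))
          (by simp [extra, Rel.sym])
        have k8 := g3 (.add (nA L w0.length 7) (nS L (w0.length + 1) 0) (nA L w0.length 1))
          (by simp [extra, Rel.sym])
        have k5 := g3 (.mul (nA L w0.length 5) (nS L w0.length 0) (nA L w0.length 3))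
          (by simp [extra, Rel.sym])
        have k6 := g3 (.mul (nA L w0.length 6) (nA L w0.length 4) (nA L w0.length 7))
          (by simp [extra, Rel.sym])
        have k7 := g3 (.add (nO L) (nA L w0.length 5) (nA L w0.length 6))
          (by simp [extra, Rel.sym])
        simp only [Gate.Holds] at k1 k1' k2 k3 k4 k5 k6 k7 k8
        rw [a1] at k2 k8
        rw [h.one] at k3 k4
        rw [h.zero] at k7
        rw [← hy] at k1 k4 k5
        have hsq : 0 ≤ z (nA L w0.length 1) := by
          rw [k1']
          exact mul_self_nonneg _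
        have hy01 : y = 0 ∨ y = 1 := by
          have : y * (y - 1) = 0 := by linarith
          rcases mul_eq_zero.mp this with h' | h'
          · exact Or.inl h'
          · exact Or.inr (by linarith)
        rcases hy01 with hy0 | hy1
        · rw [hy0]
          rw [hy0] at k4 k5
          have e4 : z (nA L w0.length 4) = 1 := by linarith
          rw [e4] at k6
          rw [tv_false]
          simp only [Rel.Holds, gt_iff_lt, not_lt]
          linarith
        · rw [hy1]
          rw [hy1] at k4 k5
          have e4 : z (nA L w0.length 4) = 0 := by linarith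
          rw [e4] at k6
          have e2 : F * z (nA L w0.length 1) = 1 := by linarith
          rw [tv_true]
          simp only [Rel.Holds, gt_iff_lt]
          by_contra hneg
          rw [not_lt] at hneg
          have := mul_nonpos_of_nonpos_of_nonneg hneg hsq
          linarith
      | ge =>
        have k1 := g3 (.mul (nS L w0.length 0) (nS L w0.length 0) (nS L w0.length 0))
          (by simp [extra, Rel.sym])
        have k1' := g3 (.mul (nA L w0.length 1) (nA L w0.length 0) (nA L w0.length 0))
          (by simp [extra, Rel.sym])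
        have k2 := g3 (.mul (nA L w0.length 2) (nS L (w0.length + 1) 0) (nA L w0.length 1))
          (by simp [extra, Rel.sym])
        have k3 := g3 (.add (nA L w0.length 3) (nA L w0.length 2) (nE L))
          (by simp [extra, Rel.sym])
        have k4 := g3 (.add (nE L) (nA L w0.length 4) (nS L w0.length 0))
          (by simp [extra, Rel.sym])
        have k8 := g3 (.add (nS L (w0.length + 1) 0) (nA L w0.length 7) (nA L w0.length 1))
          (by simp [extra, Rel.sym])
        have k5 := g3 (.mul (nA L w0.length 5) (nS L w0.length 0) (nA L w0.length 7))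
          (by simp [extra, Rel.sym])
        have k6 := g3 (.mul (nA L w0.length 6) (nA L w0.length 4) (nA L w0.length 3))
          (by simp [extra, Rel.sym])
        have k7 := g3 (.add (nO L) (nA L w0.length 5) (nA L w0.length 6))
          (by simp [extra, Rel.sym])
        simp only [Gate.Holds] at k1 k1' k2 k3 k4 k5 k6 k7 k8
        rw [a1] at k2 k8
        rw [h.one] at k3 k4
        rw [h.zero] at k7
        rw [← hy] at k1 k4 k5
        have hsq : 0 ≤ z (nA L w0.length 1) := by
          rw [k1']
          exact mul_self_nonneg _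
        have hy01 : y = 0 ∨ y = 1 := by
          have : y * (y - 1) = 0 := by linarith
          rcases mul_eq_zero.mp this with h' | h'
          · exact Or.inl h'
          · exact Or.inr (by linarith)
        rcases hy01 with hy0 | hy1
        · rw [hy0]
          rw [hy0] at k4 k5
          have e4 : z (nA L w0.length 4) = 1 := by linarith
          rw [e4] at k6
          have e2 : F * z (nA L w0.length 1) = -1 := by linarith
          rw [tv_false]
          simp only [Rel.Holds, ge_iff_le, not_le]
          by_contra hneg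
          rw [not_lt] at hneg
          have := mul_nonneg hneg hsq
          linarith
        · rw [hy1]
          rw [hy1] at k4 k5
          have e4 : z (nA L w0.length 4) = 0 := by linarith
          rw [e4] at k6
          rw [tv_true]
          simp only [Rel.Holds, ge_iff_le]
          linarith
    · intro d hd1 hd2
      have hst : z (nS L w0.length d) = z (nS L (w0.length + 1) d) := by
        have := g1 d (by omega)
        cases r <;>
        · simp only [stackGate, Rel.sym] at this
          rw [if_pos hd1, cp_holds h] at this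
          exact this
      rw [hst, a2 _ hd1 (by omega), h4 _ (by omega)]
      congr 2
      simp [Formula.enc]
      omega
  | and φ ψ ihs iht =>
    intro w0 w1 hw
    simp only [Formula.enc, List.cons_append, List.append_assoc] at hw
    have hp := hlt hw
    have hw1 : w = (w0 ++ [.and]) ++ (φ.enc ++ (ψ.enc ++ w1)) := by
      rw [hw]
      simp
    have hw2 : w = (w0 ++ [.and] ++ φ.enc) ++ (ψ.enc ++ w1) := by
      rw [hw]
      simp
    obtain ⟨a1, a2⟩ := ihs _ _ hw1
    obtain ⟨b1, b2⟩ := iht _ _ hw2
    have hl1 : (w0 ++ [Sym.and]).length = w0.length + 1 := by simp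
    have hl2 : (w0 ++ [Sym.and] ++ φ.enc).length = w0.length + 1 + φ.enc.length := by
      simp
      omega
    rw [hl1] at a1 a2
    rw [hl2] at b1 b2
    obtain ⟨g1, _, g3⟩ := h.pos _ _ _ hw
    constructor
    · have := g3 (.mul (nS L w0.length 0) (nS L (w0.length + 1) 0) (nS L (w0.length + 1) 1))
        (by simp [extra])
      simp only [Gate.Holds] at this
      rw [this, a1, a2 1 le_rfl (by omega), Nat.sub_self, b1]
      simp only [Formula.Holds]
      by_cases h1 : φ.Holds (xval z L n) <;> by_cases h2 : ψ.Holds (xval z L n) <;>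
        simp [tv, h1, h2]
    · intro d hd1 hd2
      have := g1 d (by omega)
      simp only [stackGate] at this
      rw [if_pos ⟨hd1, by omega⟩, cp_holds h] at this
      rw [this, a2 _ (by omega) (by omega), Nat.add_sub_cancel, b2 _ hd1 (by omega)]
      congr 2
      simp [Formula.enc]
      omega
  | or φ ψ ihs iht =>
    intro w0 w1 hw
    simp only [Formula.enc, List.cons_append, List.append_assoc] at hw
    have hp := hlt hw
    have hw1 : w = (w0 ++ [.or]) ++ (φ.enc ++ (ψ.enc ++ w1)) := by
      rw [hw]
      simp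
    have hw2 : w = (w0 ++ [.or] ++ φ.enc) ++ (ψ.enc ++ w1) := by
      rw [hw]
      simp
    obtain ⟨a1, a2⟩ := ihs _ _ hw1
    obtain ⟨b1, b2⟩ := iht _ _ hw2
    have hl1 : (w0 ++ [Sym.or]).length = w0.length + 1 := by simp
    have hl2 : (w0 ++ [Sym.or] ++ φ.enc).length = w0.length + 1 + φ.enc.length := by
      simp
      omega
    rw [hl1] at a1 a2
    rw [hl2] at b1 b2
    obtain ⟨g1, _, g3⟩ := h.pos _ _ _ hw
    constructor
    · have k1 := g3 (.mul (nA L w0.length 0) (nS L (w0.length + 1) 0) (nS L (w0.length + 1) 1))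
        (by simp [extra])
      have k2 := g3 (.add (nA L w0.length 1) (nS L (w0.length + 1) 0) (nS L (w0.length + 1) 1))
        (by simp [extra])
      have k3 := g3 (.add (nA L w0.length 1) (nS L w0.length 0) (nA L w0.length 0))
        (by simp [extra])
      simp only [Gate.Holds] at k1 k2 k3
      rw [a1, a2 1 le_rfl (by omega), Nat.sub_self, b1] at k1 k2
      have k4 : z (nS L w0.length 0) = z (nA L w0.length 1) - z (nA L w0.length 0) := by linarith
      rw [k4, k1, k2]
      simp only [Formula.Holds]
      by_cases h1 : φ.Holds (xval z L n) <;> by_cases h2 : ψ.Holds (xval z L n) <;>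
        simp [tv, h1, h2]
    · intro d hd1 hd2
      have := g1 d (by omega)
      simp only [stackGate] at this
      rw [if_pos ⟨hd1, by omega⟩, cp_holds h] at this
      rw [this, a2 _ (by omega) (by omega), Nat.add_sub_cancel, b2 _ hd1 (by omega)]
      congr 2
      simp [Formula.enc]
      omega
  | not φ ih =>
    intro w0 w1 hw
    simp only [Formula.enc, List.cons_append] at hw
    have hp := hlt hw
    have hw1 : w = (w0 ++ [.not]) ++ (φ.enc ++ w1) := by
      rw [hw]
      simp
    obtain ⟨a1, a2⟩ := ih _ _ hw1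
    have hl1 : (w0 ++ [Sym.not]).length = w0.length + 1 := by simp
    rw [hl1] at a1 a2
    obtain ⟨g1, _, g3⟩ := h.pos _ _ _ hw
    constructor
    · have k1 := g3 (.add (nE L) (nS L w0.length 0) (nS L (w0.length + 1) 0)) (by simp [extra])
      simp only [Gate.Holds] at k1
      rw [a1, h.one] at k1
      have k4 : z (nS L w0.length 0) = 1 - tv (φ.Holds (xval z L n)) := by linarith
      rw [k4]
      simp only [Formula.Holds]
      by_cases h1 : φ.Holds (xval z L n) <;> simp [tv, h1]
    · intro d hd1 hd2
      have := g1 d (by omega)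
      simp only [stackGate] at this
      rw [if_pos hd1, cp_holds h] at this
      rw [this, a2 _ hd1 (by omega)]
      congr 2
      simp [Formula.enc]
      omega

end sound

/-! ### Completeness -/

/-- states of the machine -/
structure St where
  s : ℕ → ℝ
  t : ℕ → ℝ
  b : ℝ
  x : ℕ → ℝ

def pushS (v : ℝ) (f : ℕ → ℝ) : ℕ → ℝ
  | 0 => v
  | d + 1 => f d

def topS (v : ℝ) (f : ℕ → ℝ) : ℕ → ℝ
  | 0 => v
  | d + 1 => f (d + 1)

def popS (v : ℝ) (f : ℕ → ℝ) : ℕ → ℝ
  | 0 => v
  | d + 1 => f (d + 2)

theorem topS_pos {v : ℝ} {f : ℕ → ℝ} {d : ℕ} (h : 1 ≤ d) : topS v f d = f d := by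
  obtain ⟨e, rfl⟩ : ∃ e, d = e + 1 := ⟨d - 1, by omega⟩
  rfl

theorem popS_pos {v : ℝ} {f : ℕ → ℝ} {d : ℕ} (h : 1 ≤ d) : popS v f d = f (d + 1) := by
  obtain ⟨e, rfl⟩ : ∃ e, d = e + 1 := ⟨d - 1, by omega⟩
  rfl

open Classical in
/-- the square of the witness of a strict inequality -/
noncomputable def vgt (f : ℝ) : ℝ := if 0 < f then f⁻¹ else -f

open Classical in
/-- the square of the witness of an inequality -/
noncomputable def vge (f : ℝ) : ℝ := if 0 ≤ f then f else -f⁻¹

theorem vgt_nonneg (f : ℝ) : 0 ≤ vgt f := by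
  unfold vgt
  split_ifs with h
  · exact (inv_pos.mpr h).le
  · linarith

theorem vge_nonneg (f : ℝ) : 0 ≤ vge f := by
  unfold vge
  split_ifs with h
  · exact h
  · have : f⁻¹ < 0 := inv_lt_zero.mpr (not_le.mp h)
    linarith

/-- the auxiliary variables of an equation -/
noncomputable def auxEq (f : ℝ) : ℕ → ℝ
  | 0 => f⁻¹
  | 2 => f * f⁻¹
  | 3 => f * f⁻¹ - 1
  | 4 => 1 - tv (f = 0)
  | 5 => tv (f = 0) * f
  | 6 => (1 - tv (f = 0)) * (f * f⁻¹ - 1)
  | _ => 0

noncomputable def auxGt (f : ℝ) : ℕ → ℝ
  | 0 => √(vgt f)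
  | 1 => vgt f
  | 2 => f * vgt f
  | 3 => f * vgt f - 1
  | 4 => 1 - tv (f > 0)
  | 5 => tv (f > 0) * (f * vgt f - 1)
  | 6 => (1 - tv (f > 0)) * (f + vgt f)
  | 7 => f + vgt f
  | _ => 0

noncomputable def auxGe (f : ℝ) : ℕ → ℝ
  | 0 => √(vge f)
  | 1 => vge f
  | 2 => f * vge f
  | 3 => f * vge f + 1
  | 4 => 1 - tv (f ≥ 0)
  | 5 => tv (f ≥ 0) * (f - vge f)
  | 6 => (1 - tv (f ≥ 0)) * (f * vge f + 1)
  | 7 => f - vge f
  | _ => 0

theorem tv_sq (P : Prop) : tv P = tv P * tv P := by
  by_cases h : P
  · rw [tv_true h, mul_one]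
  · rw [tv_false h, mul_zero]

theorem eq_final (f : ℝ) : 0 = tv (f = 0) * f + (1 - tv (f = 0)) * (f * f⁻¹ - 1) := by
  by_cases h : f = 0
  · rw [tv_true h, h]
    simp
  · rw [tv_false h, mul_inv_cancel₀ h]
    ring

theorem gt_final (f : ℝ) :
    0 = tv (f > 0) * (f * vgt f - 1) + (1 - tv (f > 0)) * (f + vgt f) := by
  by_cases h : f > 0
  · rw [tv_true h]
    unfold vgt
    rw [if_pos h, mul_inv_cancel₀ h.ne']
    ring
  · rw [tv_false h]
    unfold vgt
    rw [if_neg h]
    ring

theorem ge_final (f : ℝ) :
    0 = tv (f ≥ 0) * (f - vge f) + (1 - tv (f ≥ 0)) * (f * vge f + 1) := by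
  by_cases h : f ≥ 0
  · rw [tv_true h]
    unfold vge
    rw [if_pos h]
    ring
  · rw [tv_false h]
    unfold vge
    have h0 : f ≠ 0 := by
      intro h'
      rw [h'] at h
      exact h le_rfl
    rw [if_neg h, mul_neg, mul_inv_cancel₀ h0]
    ring

/-- one step of the machine: the stack -/
noncomputable def stpS (a : Sym) (q : St) : ℕ → ℝ :=
  match a with
  | .var => pushS (q.t 0) q.s
  | .const => pushS q.b q.s
  | .add => popS (q.s 0 + q.s 1) q.s
  | .mul => popS (q.s 0 * q.s 1) q.s
  | .and => popS (q.s 0 * q.s 1) q.s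
  | .or => popS (q.s 0 + q.s 1 - q.s 0 * q.s 1) q.s
  | .eq => topS (tv (q.s 0 = 0)) q.s
  | .gt => topS (tv (q.s 0 > 0)) q.s
  | .ge => topS (tv (q.s 0 ≥ 0)) q.s
  | .not => topS (1 - q.s 0) q.s
  | .plus => q.s
  | .minus => q.s
  | .zero => q.s
  | .one => q.s
  | .tick => q.s
  | .stop => q.s
  | .fin => q.s

/-- one step of the machine: the shifted variables -/
noncomputable def stpT (X : ℕ → ℝ) (a : Sym) (q : St) : ℕ → ℝ :=
  match a with
  | .tick => fun k => q.t (k + 1)
  | .stop => X
  | _ => q.t

/-- one step of the machine: the binary number -/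
noncomputable def stpB (a : Sym) (q : St) : ℝ :=
  match a with
  | .plus => q.b
  | .minus => -q.b
  | .zero => q.b + q.b
  | .one => q.b + q.b + 1
  | _ => 0

/-- one step of the machine: the auxiliary variables -/
noncomputable def stpX (a : Sym) (q : St) : ℕ → ℝ :=
  match a with
  | .one => fun _ => q.b + q.b
  | .or => fun j => if j = 0 then q.s 0 * q.s 1 else q.s 0 + q.s 1
  | .eq => auxEq (q.s 0)
  | .gt => auxGt (q.s 0)
  | .ge => auxGe (q.s 0)
  | _ => fun _ => 0

/-- one step of the machine -/
noncomputable def stp (X : ℕ → ℝ) (a : Sym) (q : St) : St :=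
  ⟨stpS a q, stpT X a q, stpB a q, stpX a q⟩

/-- the machine -/
noncomputable def run (X : ℕ → ℝ) : List Sym → St
  | [] => ⟨fun _ => 0, fun _ => 0, 0, fun _ => 0⟩
  | a :: w => stp X a (run X w)

theorem pos_complete {z : ℕ → ℝ} {L p : ℕ} {X : ℕ → ℝ} {a : Sym} {q : St} (hp : p < L)
    (hS : ∀ d, d ≤ L → z (nS L p d) = (stp X a q).s d)
    (hS' : ∀ d, d ≤ L → z (nS L (p + 1) d) = q.s d)
    (hT : ∀ d, d ≤ L → z (nT L p d) = (stp X a q).t d)
    (hT' : ∀ d, d ≤ L → z (nT L (p + 1) d) = q.t d)
    (hX : ∀ d, d ≤ L → z (nX L d) = X d)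
    (hB : z (nB L p) = (stp X a q).b) (hB' : z (nB L (p + 1)) = q.b)
    (hA : ∀ j, j < 8 → z (nA L p j) = (stp X a q).x j) (hO : z (nO L) = 0)
    (hE : z (nE L) = 1) : PosHolds z L p a := by
  have hcp : ∀ i j, (cp L i j).Holds z ↔ z i = z j := by
    intro i j
    simp only [cp, Gate.Holds]
    rw [hO, add_zero]
  have htr : (triv L).Holds z := by
    simp only [triv, Gate.Holds]
    rw [hO, add_zero]
  refine ⟨?_, ?_, ?_⟩
  · intro d hd
    cases a <;> simp only [stackGate] <;> try split_ifs
    all_goals first
      | exact htr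
      | skip
    all_goals rw [hcp]
    all_goals first
      | (rw [hS _ (by omega), hS' _ (by omega)]; rfl)
      | (rw [hS _ (by omega), hS' _ (by omega)]; exact popS_pos (by omega))
      | (rw [hS _ (by omega), hS' _ (by omega)]; exact topS_pos (by omega))
  · intro k hk
    cases a <;> simp only [regGate] <;> try split_ifs
    all_goals first
      | exact htr
      | skip
    all_goals rw [hcp]
    all_goals first
      | (rw [hT _ (by omega), hT' _ (by omega)]; rfl)
      | (rw [hT _ (by omega), hX _ (by omega)]; rfl)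
  · have hS0 := hS 0 (by omega)
    have hS0' := hS' 0 (by omega)
    have hS1' := hS' 1 (by omega)
    have hT0' := hT' 0 (by omega)
    have hA0 := hA 0 (by omega)
    have hA1 := hA 1 (by omega)
    have hA2 := hA 2 (by omega)
    have hA3 := hA 3 (by omega)
    have hA4 := hA 4 (by omega)
    have hA5 := hA 5 (by omega)
    have hA6 := hA 6 (by omega)
    have hA7 := hA 7 (by omega)
    cases a <;> simp only [extra, List.forall_mem_cons, List.not_mem_nil, false_imp_iff,
      implies_true, and_true, cp, Gate.Holds, hO, hE, hS0, hS0', hS1', hT0', hA0, hA1, hA2, hA3,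
      hA4, hA5, hA6, hA7, hB, hB', stp, stpS, stpB, stpX, add_zero]
    · rfl
    · rfl
    · ring
    · rfl
    · rfl
    · refine ⟨tv_sq _, rfl, ?_, ?_, rfl, rfl, ?_⟩
      · simp only [auxEq]
        ring
      · simp only [auxEq, topS]
        ring
      · exact eq_final _
    · refine ⟨tv_sq _, ?_, rfl, ?_, ?_, ?_, rfl, rfl, ?_⟩
      · simp only [auxGt]
        exact (Real.mul_self_sqrt (vgt_nonneg _)).symm
      · simp only [auxGt]
        ring
      · simp only [auxGt, topS]
        ring
      · simp only [auxGt]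
      · exact gt_final _
    · refine ⟨tv_sq _, ?_, rfl, ?_, ?_, ?_, rfl, rfl, ?_⟩
      · simp only [auxGe]
        exact (Real.mul_self_sqrt (vge_nonneg _)).symm
      · simp only [auxGe]
      · simp only [auxGe, topS]
        ring
      · simp only [auxGe]
        ring
      · exact ge_final _
    · rfl
    · refine ⟨rfl, rfl, ?_⟩
      simp only [popS]
      norm_num
    · simp only [topS]
      ring

/-- the values of all variables -/
noncomputable def zz (L : ℕ) (R : ℕ → St) (X : ℕ → ℝ) (i : ℕ) : ℝ :=
  if i < (L + 1) ^ 2 then (R (i / (L + 1))).s (i % (L + 1))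
  else if i < 2 * (L + 1) ^ 2 then
    (R ((i - (L + 1) ^ 2) / (L + 1))).t ((i - (L + 1) ^ 2) % (L + 1))
  else if i < 2 * (L + 1) ^ 2 + (L + 1) then X (i - 2 * (L + 1) ^ 2)
  else if i < 2 * (L + 1) ^ 2 + 2 * (L + 1) then (R (i - (2 * (L + 1) ^ 2 + (L + 1)))).b
  else if i < 2 * (L + 1) ^ 2 + 10 * (L + 1) then
    (R ((i - (2 * (L + 1) ^ 2 + 2 * (L + 1))) / 8)).x ((i - (2 * (L + 1) ^ 2 + 2 * (L + 1))) % 8)
  else if i = 2 * (L + 1) ^ 2 + 10 * (L + 1) then 0 else 1

theorem grid {L p d : ℕ} (hp : p ≤ L) (hd : d ≤ L) :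
    p * (L + 1) + d < (L + 1) ^ 2 ∧ (p * (L + 1) + d) / (L + 1) = p ∧
      (p * (L + 1) + d) % (L + 1) = d := by
  refine ⟨?_, ?_, ?_⟩
  · have : p * (L + 1) ≤ L * (L + 1) := Nat.mul_le_mul_right _ hp
    nlinarith
  · rw [mul_comm, Nat.mul_add_div (by omega), Nat.div_eq_of_lt (by omega), add_zero]
  · rw [mul_comm, Nat.mul_add_mod, Nat.mod_eq_of_lt (by omega)]

theorem zz_S (L : ℕ) (R : ℕ → St) (X : ℕ → ℝ) {p d : ℕ} (hp : p ≤ L) (hd : d ≤ L) :
    zz L R X (nS L p d) = (R p).s d := by
  obtain ⟨h1, h2, h3⟩ := grid hp hd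
  unfold zz nS
  rw [if_pos h1, h2, h3]

theorem zz_T (L : ℕ) (R : ℕ → St) (X : ℕ → ℝ) {p d : ℕ} (hp : p ≤ L) (hd : d ≤ L) :
    zz L R X (nT L p d) = (R p).t d := by
  obtain ⟨h1, h2, h3⟩ := grid hp hd
  unfold zz nT
  rw [if_neg (by omega), if_pos (by omega), Nat.add_sub_cancel_left, h2, h3]

theorem zz_X (L : ℕ) (R : ℕ → St) (X : ℕ → ℝ) {k : ℕ} (hk : k ≤ L) :
    zz L R X (nX L k) = X k := by
  unfold zz nX
  generalize (L + 1) ^ 2 = K
  rw [if_neg (by omega), if_neg (by omega), if_pos (by omega), Nat.add_sub_cancel_left]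

theorem zz_B (L : ℕ) (R : ℕ → St) (X : ℕ → ℝ) {p : ℕ} (hp : p ≤ L) :
    zz L R X (nB L p) = (R p).b := by
  unfold zz nB
  generalize (L + 1) ^ 2 = K
  rw [if_neg (by omega), if_neg (by omega), if_neg (by omega), if_pos (by omega)]
  congr 2
  omega

theorem zz_A (L : ℕ) (R : ℕ → St) (X : ℕ → ℝ) {p j : ℕ} (hp : p ≤ L) (hj : j < 8) :
    zz L R X (nA L p j) = (R p).x j := by
  unfold zz nA
  generalize (L + 1) ^ 2 = K
  rw [if_neg (by omega), if_neg (by omega), if_neg (by omega), if_neg (by omega),
    if_pos (by omega)]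
  have h1 : (2 * K + 2 * (L + 1) + (8 * p + j) - (2 * K + 2 * (L + 1))) / 8 = p := by omega
  have h2 : (2 * K + 2 * (L + 1) + (8 * p + j) - (2 * K + 2 * (L + 1))) % 8 = j := by omega
  rw [h1, h2]

theorem zz_O (L : ℕ) (R : ℕ → St) (X : ℕ → ℝ) : zz L R X (nO L) = 0 := by
  unfold zz nO
  generalize (L + 1) ^ 2 = K
  rw [if_neg (by omega), if_neg (by omega), if_neg (by omega), if_neg (by omega),
    if_neg (by omega), if_pos rfl]

theorem zz_E (L : ℕ) (R : ℕ → St) (X : ℕ → ℝ) : zz L R X (nE L) = 1 := by
  unfold zz nE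
  generalize (L + 1) ^ 2 = K
  rw [if_neg (by omega), if_neg (by omega), if_neg (by omega), if_neg (by omega),
    if_neg (by omega), if_neg (by omega)]

theorem good_zz (w : List Sym) (X : ℕ → ℝ) :
    Good (zz w.length (fun p => run X (w.drop p)) X) w w.length := by
  refine ⟨rfl, zz_O _ _ _, zz_E _ _ _, ?_⟩
  intro w0 a w2 hw
  have hp : w0.length < w.length := by
    rw [hw]
    simp
  have h1 : w.drop w0.length = a :: w2 := by
    rw [hw]
    simp
  have h2 : w.drop (w0.length + 1) = w2 := by
    rw [← List.tail_drop, h1]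
    rfl
  have h3 : run X (w.drop w0.length) = stp X a (run X (w.drop (w0.length + 1))) := by
    rw [h1, h2]
    rfl
  refine pos_complete (X := X) (q := run X (w.drop (w0.length + 1))) hp ?_ ?_ ?_ ?_ ?_ ?_ ?_ ?_
    (zz_O _ _ _) (zz_E _ _ _)
  · intro d hd
    rw [zz_S _ _ _ hp.le hd, h3]
  · intro d hd
    rw [zz_S _ _ _ (by omega) hd]
  · intro d hd
    rw [zz_T _ _ _ hp.le hd, h3]
  · intro d hd
    rw [zz_T _ _ _ (by omega) hd]
  · intro d hd
    exact zz_X _ _ _ hd
  · rw [zz_B _ _ _ hp.le, h3]
  · rw [zz_B _ _ _ (by omega)]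
  · intro j hj
    rw [zz_A _ _ _ hp.le hj, h3]

/-- L1 -/
theorem l1 : L1Stmt := by
  intro n φ
  simp only [tagged_iff]
  set w := encInst ⟨n, φ⟩ with hwd
  have hw : w = List.replicate n .tick ++ .stop :: φ.enc := rfl
  have hn : n ≤ w.length := by
    rw [hw]
    simp
  have core : ∀ z, Good z w w.length →
      z (nS w.length 0 0) = tv (φ.Holds (xval z w.length n)) := by
    intro z hg
    have h1 := (ticks hg n [] (.stop :: φ.enc) hw).1 0 (by omega)
    have hw2 : w = (List.replicate n Sym.tick) ++ .stop :: φ.enc := hw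
    have h2 := quiet_stack hg hw2 (by unfold Quiet; simp) (d := 0) (by omega)
    have hw3 : w = (List.replicate n Sym.tick ++ [.stop]) ++ (φ.enc ++ []) := by
      rw [hw]
      simp
    have h3 := (formula_sound hg hn φ _ _ hw3).1
    have hl : (List.replicate n Sym.tick ++ [Sym.stop]).length = n + 1 := by simp
    rw [hl] at h3
    rw [List.length_replicate] at h2
    rw [List.length_nil, zero_add] at h1
    rw [h1, h2, h3]
  constructor
  · rintro ⟨a, ha⟩
    let X : ℕ → ℝ := fun k => if h : k < n then a ⟨k, h⟩ else 0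
    have hg := good_zz w X
    refine ⟨_, ⟨hg.zero, hg.one, ?_⟩, hg.pos⟩
    rw [core _ hg, hg.zero, hg.one, add_zero]
    have hx : xval (zz w.length (fun p => run X (w.drop p)) X) w.length n = a := by
      funext i
      unfold xval
      rw [zz_X _ _ _ (by omega)]
      simp [X]
    rw [hx, tv_true ha]
  · rintro ⟨z, ⟨h0, h1, h2⟩, h3⟩
    have hg : Good z w w.length := ⟨rfl, h0, h1, h3⟩
    refine ⟨xval z w.length n, ?_⟩
    rw [core z hg, h0, h1, add_zero] at h2
    by_contra hno
    rw [tv_false hno] at h2
    exact zero_ne_one h2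

end Pool.Agent.Helper55_Pack
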