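import Pool.Agent.Helper2_Pack.StmtsT

/-! # T2: explicit descriptor lists -/

namespace Pool.Agent.Helper55_Pack

open Pool.Agent.Helper2_Pack

/-- the number `a / 32 + b / 32 * q + k3 * q ^ 3 + k4 * q ^ 4` -/
structure PD where
  a : ℤ
  b : ℤ
  k3 : ℤ
  k4 : ℤ
  deriving DecidableEq

def PD.val (q : ℚ) (x : PD) : ℚ := x.a / 32 + x.b / 32 * q + x.k3 * q ^ 3 + x.k4 * q ^ 4

instance : Add PD := ⟨fun x y => ⟨x.a + y.a, x.b + y.b, x.k3 + y.k3, x.k4 + y.k4⟩⟩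
instance : Sub PD := ⟨fun x y => ⟨x.a - y.a, x.b - y.b, x.k3 - y.k3, x.k4 - y.k4⟩⟩

theorem PD.val_add (q : ℚ) (x y : PD) : (x + y).val q = x.val q + y.val q := by
  change ((x.a + y.a : ℤ) : ℚ) / 32 + ((x.b + y.b : ℤ) : ℚ) / 32 * q +
    ((x.k3 + y.k3 : ℤ) : ℚ) * q ^ 3 + ((x.k4 + y.k4 : ℤ) : ℚ) * q ^ 4 = _
  unfold PD.val
  push_cast
  ring

theorem PD.val_sub (q : ℚ) (x y : PD) : (x - y).val q = x.val q - y.val q := by
  change ((x.a - y.a : ℤ) : ℚ) / 32 + ((x.b - y.b : ℤ) : ℚ) / 32 * q +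
    ((x.k3 - y.k3 : ℤ) : ℚ) * q ^ 3 + ((x.k4 - y.k4 : ℤ) : ℚ) * q ^ 4 = _
  unfold PD.val
  push_cast
  ring

/-- values of a pair -/
def vv (q : ℚ) (d : PD × PD) : ℚ × ℚ := (d.1.val q, d.2.val q)

/-- descriptor of a number, translated by the shift -/
def PD.dsc (x : PD) : Dsc :=
  ⟨((64 + x.a) / 32).toNat, ((64 + x.a) % 32).toNat, ((128 + x.b) / 32).toNat,
    ((128 + x.b) % 32).toNat, (8 + x.k3).toNat, (8 + x.k4).toNat⟩

/-- the numbers are in range -/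
def PD.Good (x : PD) : Prop :=
  -32 ≤ x.a ∧ -128 ≤ x.b ∧ x.b < 896 ∧ -8 ≤ x.k3 ∧ x.k3 < 24 ∧ -8 ≤ x.k4 ∧ x.k4 < 24

instance (x : PD) : Decidable x.Good := by unfold PD.Good; infer_instance

theorem PD.dsc_ok {x : PD} (h : x.Good) : x.dsc.OK := by
  obtain ⟨h1, h2, h3, h4, h5, h6, h7⟩ := h
  unfold PD.dsc Dsc.OK
  dsimp only
  refine ⟨?_, ?_, ?_, ?_, ?_, ?_⟩ <;> omega

theorem toNat_cast {n : ℤ} (h : 0 ≤ n) : ((n.toNat : ℕ) : ℚ) = (n : ℚ) := by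
  have h1 : ((n.toNat : ℕ) : ℤ) = n := Int.toNat_of_nonneg h
  exact_mod_cast congrArg (fun z : ℤ => (z : ℚ)) h1

theorem PD.dsc_val {x : PD} (h : x.Good) (m : ℕ) : x.dsc.val m = x.val (qq m) + shift m := by
  obtain ⟨h1, h2, h3, h4, h5, h6, h7⟩ := h
  unfold PD.dsc Dsc.val PD.val shift
  dsimp only
  rw [toNat_cast (by omega), toNat_cast (by omega), toNat_cast (by omega), toNat_cast (by omega),
    toNat_cast (by omega), toNat_cast (by omega)]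
  have e1 : (((64 + x.a) / 32 : ℤ) : ℚ) + (((64 + x.a) % 32 : ℤ) : ℚ) / 32 =
      (64 + (x.a : ℚ)) / 32 := by
    have : (64 + x.a) / 32 * 32 + (64 + x.a) % 32 = 64 + x.a := by omega
    have h' := congrArg (fun z : ℤ => (z : ℚ)) this
    push_cast at h'
    linarith
  have e2 : (((128 + x.b) / 32 : ℤ) : ℚ) + (((128 + x.b) % 32 : ℤ) : ℚ) / 32 =
      (128 + (x.b : ℚ)) / 32 := by
    have : (128 + x.b) / 32 * 32 + (128 + x.b) % 32 = 128 + x.b := by omega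
    have h' := congrArg (fun z : ℤ => (z : ℚ)) this
    push_cast at h'
    linarith
  rw [e1, e2]
  push_cast
  ring

/-- the descriptors of a list of points -/
def dd (L : List (PD × PD)) : List (Dsc × Dsc) := L.map fun d => (d.1.dsc, d.2.dsc)

/-- all coordinates are in range -/
def GoodL (L : List (PD × PD)) : Prop := ∀ d ∈ L, d.1.Good ∧ d.2.Good

instance (L : List (PD × PD)) : Decidable (GoodL L) := by unfold GoodL; infer_instance

theorem dd_ok {L : List (PD × PD)} (h : GoodL L) : ∀ d ∈ dd L, d.1.OK ∧ d.2.OK := by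
  intro d hd
  obtain ⟨e, he, rfl⟩ := List.mem_map.mp hd
  exact ⟨PD.dsc_ok (h e he).1, PD.dsc_ok (h e he).2⟩

theorem sh_val (m k : ℕ) (d : Dsc) : (d.sh k).val m = d.val m + k := by
  unfold Dsc.sh Dsc.val
  push_cast
  ring

theorem sh_zero (d : Dsc) : d.sh 0 = d := rfl

theorem dPoly_dd {L : List (PD × PD)} (h : GoodL L) (m : ℕ) :
    dPoly m (dd L) = translate m (L.map (vv (qq m))) := by
  unfold dPoly dd Helper2_Pack.translate
  rw [List.map_map, List.map_map]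
  apply List.map_congr_left
  intro d hd
  simp only [Function.comp_apply, vv]
  rw [PD.dsc_val (h d hd).1, PD.dsc_val (h d hd).2]

theorem dPoly_place {L : List (PD × PD)} (h : GoodL L) (m c N : ℕ) :
    dPoly m ((dd L).map fun d => (d.1.sh c, d.2.sh N)) =
      translate m (place c N (L.map (vv (qq m)))) := by
  unfold dPoly dd Helper2_Pack.translate place
  rw [List.map_map, List.map_map, List.map_map, List.map_map]
  apply List.map_congr_left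
  intro d hd
  simp only [Function.comp_apply, vv, sh_val]
  rw [PD.dsc_val (h d hd).1, PD.dsc_val (h d hd).2]
  ext <;> ring

/-! ### The lists -/

def tentPD (g : PD) (L : List (PD × PD)) : List (PD × PD) :=
  L.flatMap fun d => [(d.1 - (d.2 - g), g), (d.1, d.2), (d.1 + (d.2 - g), g)]

theorem tentPD_val (q : ℚ) (g : PD) (L : List (PD × PD)) :
    (tentPD g L).map (vv q) = tentPts (g.val q) (L.map (vv q)) := by
  unfold tentPD tentPts
  rw [List.map_flatMap, List.flatMap_map]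
  congr 1
  funext d
  simp [vv, PD.val_add, PD.val_sub]

theorem val_mk (q : ℚ) (a b k3 k4 : ℤ) :
    (⟨a, b, k3, k4⟩ : PD).val q = a / 32 + b / 32 * q + k3 * q ^ 3 + k4 * q ^ 4 := rfl

def dentsPD (t : Tile) : List (PD × PD) :=
  t.bot.marks.map fun p : ℕ =>
    if t.sgn = 0 then (⟨p, 0, 0, 0⟩, ⟨0, 32, 1, 0⟩)
    else if p = 14 then (⟨p, 0, t.sgn, 0⟩, ⟨0, 32, 1, 0⟩)
    else (⟨p, 0, 0, 0⟩, ⟨0, 32, 2, 0⟩)

theorem dentsPD_val (q : ℚ) (t : Tile) : (dentsPD t).map (vv q) = t.dentsQ q := by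
  unfold dentsPD Tile.dentsQ
  rw [List.map_map]
  apply List.map_congr_left
  intro p _
  simp only [Function.comp_apply]
  split_ifs <;> simp [vv, val_mk]

def xlPD (t : Tile) : PD := if t.narrow then ⟨0, 32, 0, 0⟩ else ⟨0, 0, 0, 0⟩
def gPD (t : Tile) : PD := if t.sgn = 0 then ⟨0, 0, 0, 0⟩ else ⟨0, 0, 1, 0⟩

def loPD (t : Tile) : List (PD × PD) :=
  [(xlPD t, ⟨0, 0, 8, 0⟩), (xlPD t + ⟨0, 0, 8, 0⟩ - gPD t, gPD t)] ++ tentPD (gPD t) (dentsPD t) ++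
    [(⟨32, 0, -8, 0⟩ + gPD t, gPD t), (⟨32, 0, 0, 0⟩, ⟨0, 0, 8, 0⟩)] ++
    (if t.wide then [(⟨32, 32, 0, 0⟩, ⟨0, 0, 8, 0⟩)] else [])

theorem xlPD_val (q : ℚ) (t : Tile) : (xlPD t).val q = if t.narrow then q else 0 := by
  unfold xlPD
  split_ifs <;> simp [val_mk]

theorem gPD_val (q : ℚ) (t : Tile) : (gPD t).val q = if t.sgn = 0 then 0 else q ^ 3 := by
  unfold gPD
  split_ifs <;> simp [val_mk]

theorem loPD_val (q : ℚ) (t : Tile) : (loPD t).map (vv q) = t.loPts q := by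
  unfold loPD Tile.loPts
  simp only [List.map_append, tentPD_val, dentsPD_val, List.map_cons, List.map_nil, vv,
    PD.val_add, PD.val_sub, xlPD_val, gPD_val]
  have h1 : (⟨0, 0, 8, 0⟩ : PD).val q = 8 * q ^ 3 := by simp [val_mk]
  have h2 : (⟨32, 0, -8, 0⟩ : PD).val q = 1 - 8 * q ^ 3 := by simp [val_mk]; ring
  have h3 : (⟨32, 0, 0, 0⟩ : PD).val q = 1 := by simp [val_mk]
  have h4 : (⟨32, 32, 0, 0⟩ : PD).val q = 1 + q := by simp [val_mk]
  rw [h1, h2, h3]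
  congr 1
  split_ifs
  · simp [vv, h1, h4]
  · rfl

def hiPD (t : Tile) : List (PD × PD) :=
  [(xlPD t, ⟨32, 0, -8, 0⟩), (xlPD t + ⟨0, 0, 8, 0⟩, ⟨32, 0, 0, 0⟩)] ++
    tentPD ⟨32, 0, 0, 0⟩ (t.top.marks.map fun p : ℕ => (⟨p, 0, 0, 0⟩, ⟨32, 32, 0, 0⟩)) ++
    [(⟨32, 0, -8, 0⟩, ⟨32, 0, 0, 0⟩), (⟨32, 0, 0, 0⟩, ⟨32, 0, -8, 0⟩)] ++
    (if t.wide then [(⟨32, 32, 0, 0⟩, ⟨32, 0, -8, 0⟩)] else [])

theorem marks_val (q : ℚ) (l : List ℕ) (y : PD) :
    (l.map fun p : ℕ => ((⟨p, 0, 0, 0⟩ : PD), y)).map (vv q) =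
      l.map fun p : ℕ => ((p : ℚ) / 32, y.val q) := by
  rw [List.map_map]
  apply List.map_congr_left
  intro p _
  simp [vv, val_mk]

theorem hiPD_val (q : ℚ) (t : Tile) : (hiPD t).map (vv q) = t.hiPts q := by
  unfold hiPD Tile.hiPts
  have h1 : (⟨0, 0, 8, 0⟩ : PD).val q = 8 * q ^ 3 := by simp [val_mk]
  have h2 : (⟨32, 0, -8, 0⟩ : PD).val q = 1 - 8 * q ^ 3 := by simp [val_mk]; ring
  have h3 : (⟨32, 0, 0, 0⟩ : PD).val q = 1 := by simp [val_mk]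
  have h4 : (⟨32, 32, 0, 0⟩ : PD).val q = 1 + q := by simp [val_mk]
  simp only [List.map_append, tentPD_val, marks_val, List.map_cons, List.map_nil, vv,
    PD.val_add, xlPD_val, h1, h2, h3, h4]
  congr 1
  split_ifs
  · simp [vv, h2, h4]
  · rfl

def pivPD (σ : Bool) : PD := ⟨0, 32 - 10 * sg σ, 0, 0⟩

theorem pivPD_val (q : ℚ) (σ : Bool) : (pivPD σ).val q = pivQ q σ := by
  unfold pivPD pivQ
  rw [val_mk]
  push_cast
  ring

def portPD (p a b : PD) : List (PD × PD) :=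
  [(p - ⟨0, 0, 3, 0⟩ - (a - ⟨0, 0, 1, 0⟩), ⟨0, 0, 1, 0⟩), (p - ⟨0, 0, 3, 0⟩, a),
    (p + ⟨0, 0, 3, 0⟩, b), (p + ⟨0, 0, 3, 0⟩ + (b - ⟨0, 0, 1, 0⟩), ⟨0, 0, 1, 0⟩)]

theorem portPD_val (q : ℚ) (p a b : PD) :
    (portPD p a b).map (vv q) = portPts q (p.val q) (a.val q) (b.val q) := by
  have h1 : (⟨0, 0, 1, 0⟩ : PD).val q = q ^ 3 := by simp [val_mk]
  have h2 : (⟨0, 0, 3, 0⟩ : PD).val q = 3 * q ^ 3 := by simp [val_mk]
  unfold portPD portPts
  simp only [List.map_cons, List.map_nil, vv, PD.val_add, PD.val_sub, h1, h2]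

def leverLoPD (σ : Bool) : List (PD × PD) :=
  [(⟨0, 0, 0, 0⟩, ⟨0, 0, 8, 0⟩), (⟨0, 0, 7, 0⟩, ⟨0, 0, 1, 0⟩)] ++
    portPD ⟨10, 0, 0, 0⟩ ⟨0, 32, 0, 3 * sg σ⟩ ⟨0, 32, 0, -3 * sg σ⟩ ++
    (if σ then [] else tentPD ⟨0, 0, 1, 0⟩ [(⟨13, 0, 0, 0⟩, ⟨0, 32, 2, 0⟩),
      (⟨26, 0, 0, 0⟩, ⟨0, 32, 2, 0⟩)]) ++
    portPD ⟨30, 0, 0, 0⟩ ⟨0, 32, 0, -3 * sg σ⟩ ⟨0, 32, 0, 3 * sg σ⟩ ++
    [(⟨32, 0, -7, 0⟩, ⟨0, 0, 1, 0⟩), (⟨32, 0, 0, 0⟩, ⟨0, 0, 8, 0⟩)]

theorem leverLoPD_val (q : ℚ) (σ : Bool) : (leverLoPD σ).map (vv q) = leverLo q σ := by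
  have h0 : (⟨0, 0, 0, 0⟩ : PD).val q = 0 := by simp [val_mk]
  have h1 : (⟨0, 0, 1, 0⟩ : PD).val q = q ^ 3 := by simp [val_mk]
  have h2 : (⟨0, 0, 8, 0⟩ : PD).val q = 8 * q ^ 3 := by simp [val_mk]
  have h3 : (⟨0, 0, 7, 0⟩ : PD).val q = 7 * q ^ 3 := by simp [val_mk]
  have h4 : (⟨10, 0, 0, 0⟩ : PD).val q = 10 / 32 := by simp [val_mk]
  have h5 : (⟨30, 0, 0, 0⟩ : PD).val q = 30 / 32 := by simp [val_mk]
  have h6 : (⟨0, 32, 0, 3 * sg σ⟩ : PD).val q = q + 3 * sg σ * q ^ 4 := by simp [val_mk]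
  have h7 : (⟨0, 32, 0, -3 * sg σ⟩ : PD).val q = q - 3 * sg σ * q ^ 4 := by
    simp [val_mk]
    ring
  have h8 : (⟨32, 0, -7, 0⟩ : PD).val q = 1 - 7 * q ^ 3 := by simp [val_mk]; ring
  have h9 : (⟨32, 0, 0, 0⟩ : PD).val q = 1 := by simp [val_mk]
  have h10 : (⟨13, 0, 0, 0⟩ : PD).val q = 13 / 32 := by simp [val_mk]
  have h11 : (⟨26, 0, 0, 0⟩ : PD).val q = 26 / 32 := by simp [val_mk]
  have h12 : (⟨0, 32, 2, 0⟩ : PD).val q = q + 2 * q ^ 3 := by simp [val_mk]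
  unfold leverLoPD leverLo
  simp only [List.map_append, portPD_val, List.map_cons, List.map_nil, vv, h0, h1, h2, h3, h4, h5,
    h6, h7, h8, h9]
  congr 3
  cases σ
  · simp [tentPD_val, vv, h1, h10, h11, h12]
  · simp

def leverHiPD (σ : Bool) : List (PD × PD) :=
  [(⟨0, 0, 0, 0⟩, ⟨32, 0, -8, 0⟩), (⟨0, 0, 8, 0⟩, ⟨32, 0, 0, 0⟩),
    (⟨20, 0, -2, 0⟩, ⟨32, 0, 0, 0⟩), (⟨20, 0, 0, 0⟩, pivPD σ),
    (⟨20, 0, 2, 0⟩, ⟨32, 0, 0, 0⟩), (⟨32, 0, -8, 0⟩, ⟨32, 0, 0, 0⟩),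
    (⟨32, 0, 0, 0⟩, ⟨32, 0, -8, 0⟩)]

theorem leverHiPD_val (q : ℚ) (σ : Bool) : (leverHiPD σ).map (vv q) = leverHi q σ := by
  have h0 : (⟨0, 0, 0, 0⟩ : PD).val q = 0 := by simp [val_mk]
  have h1 : (⟨32, 0, -8, 0⟩ : PD).val q = 1 - 8 * q ^ 3 := by simp [val_mk]; ring
  have h2 : (⟨0, 0, 8, 0⟩ : PD).val q = 8 * q ^ 3 := by simp [val_mk]
  have h3 : (⟨32, 0, 0, 0⟩ : PD).val q = 1 := by simp [val_mk]
  have h4 : (⟨20, 0, -2, 0⟩ : PD).val q = 20 / 32 - 2 * q ^ 3 := by simp [val_mk]; ring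
  have h5 : (⟨20, 0, 0, 0⟩ : PD).val q = 20 / 32 := by simp [val_mk]
  have h6 : (⟨20, 0, 2, 0⟩ : PD).val q = 20 / 32 + 2 * q ^ 3 := by simp [val_mk]
  unfold leverHiPD leverHi
  simp only [List.map_cons, List.map_nil, vv, h0, h1, h2, h3, h4, h5, h6, pivPD_val]

/-- the corners of a shape -/
def shpPD : Shp → List (PD × PD)
  | .tile t => loPD t ++ (hiPD t).reverse
  | .lever σ => leverLoPD σ ++ (leverHiPD σ).reverse

theorem shpPD_good : ∀ s, GoodL (shpPD s) := by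
  rintro (t | σ)
  · cases t <;> decide
  · cases σ <;> decide

theorem poly_eq (m : ℕ) (s : Shp) : poly m s = dPoly m (dd (shpPD s)) := by
  rw [dPoly_dd (shpPD_good s)]
  cases s with
  | tile t =>
    simp only [poly, shpPD, List.map_append, List.map_reverse, loPD_val, hiPD_val]
  | lever σ =>
    simp only [poly, shpPD, List.map_append, List.map_reverse, leverLoPD_val, leverHiPD_val]

/-- floor of a column -/
def floorPD (a : Col) : List (PD × PD) :=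
  tentPD ⟨0, 0, 0, 0⟩ (a.marks.map fun p : ℕ => (⟨p, 0, 0, 0⟩, ⟨0, 32, 0, 0⟩))

theorem floorPD_good : ∀ a, GoodL (floorPD a) := by
  rintro (_ | _ | _ | _) <;> decide

theorem floorPD_val (q : ℚ) (a : Col) : (floorPD a).map (vv q) =
    tentPts 0 (a.marks.map fun p : ℕ => ((p : ℚ) / 32, q)) := by
  have h0 : (⟨0, 0, 0, 0⟩ : PD).val q = 0 := by simp [val_mk]
  have h1 : (⟨0, 32, 0, 0⟩ : PD).val q = q := by simp [val_mk]
  unfold floorPD
  rw [tentPD_val, marks_val, h0, h1]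

/-- ceiling of a column -/
def topPD : Top → List (PD × PD)
  | .flat a o => [(⟨0, 0, 0, 0⟩, ⟨0, 0, 0, 0⟩), (⟨0, 0, 4, 0⟩, ⟨0, 0, 0, o⟩)] ++
      tentPD ⟨0, 0, 0, o⟩ (a.marks.map fun p : ℕ => (⟨p, 0, 0, 0⟩, ⟨0, 32, 1, o⟩)) ++
      [(⟨32, 0, -4, 0⟩, ⟨0, 0, 0, o⟩)]
  | .portL σ => [(⟨0, 0, 0, 0⟩, ⟨0, 0, 0, 0⟩), (⟨0, 0, 4, 0⟩, ⟨0, 0, 1, 0⟩)] ++
      tentPD ⟨0, 0, 1, 0⟩ (((pcol σ).marks.filter (fun p : ℕ => p < 16)).map
        fun p : ℕ => (⟨p, 0, 0, 0⟩, ⟨0, 32, 2, 0⟩)) ++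
      [(⟨16, 0, -2, 0⟩, ⟨0, 0, 1, 0⟩), (⟨16, 0, -1, 0⟩, ⟨32, 0, 1, 0⟩)]
  | .portR σ => [(⟨0, 0, 0, 0⟩, ⟨32, 0, 1, 0⟩), (⟨4, 0, -1, 0⟩, ⟨32, 0, 1, 0⟩),
      (⟨4, 0, 0, 0⟩, pivPD σ), (⟨4, 0, 1, 0⟩, ⟨32, 0, 1, 0⟩), (⟨16, 0, 1, 0⟩, ⟨32, 0, 1, 0⟩),
      (⟨16, 0, 2, 0⟩, ⟨0, 0, 1, 0⟩)] ++
      tentPD ⟨0, 0, 1, 0⟩ (((pcol σ).marks.filter (fun p : ℕ => 16 < p)).map
        fun p : ℕ => (⟨p, 0, 0, 0⟩, ⟨0, 32, 2, 0⟩)) ++
      [(⟨32, 0, -4, 0⟩, ⟨0, 0, 1, 0⟩)]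

theorem topPD_good (t : Top) (h : ∀ a o, t = .flat a o → o = -1 ∨ o = 0 ∨ o = 1) :
    GoodL (topPD t) := by
  cases t with
  | flat a o =>
    rcases h a o rfl with rfl | rfl | rfl <;> cases a <;> decide
  | portL σ => cases σ <;> decide
  | portR σ => cases σ <;> decide

theorem topPD_val (q : ℚ) (t : Top) : (topPD t).map (vv q) = t.pts q := by
  have h0 : (⟨0, 0, 0, 0⟩ : PD).val q = 0 := by simp [val_mk]
  have h1 : (⟨0, 0, 4, 0⟩ : PD).val q = 4 * q ^ 3 := by simp [val_mk]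
  have h2 : ∀ o : ℤ, (⟨0, 0, 0, o⟩ : PD).val q = o * q ^ 4 := by simp [val_mk]
  have h3 : ∀ o : ℤ, (⟨0, 32, 1, o⟩ : PD).val q = o * q ^ 4 + q + q ^ 3 := by
    intro o
    simp [val_mk]
    ring
  have h4 : (⟨32, 0, -4, 0⟩ : PD).val q = 1 - 4 * q ^ 3 := by simp [val_mk]; ring
  have h5 : (⟨0, 0, 1, 0⟩ : PD).val q = q ^ 3 := by simp [val_mk]
  have h6 : (⟨0, 32, 2, 0⟩ : PD).val q = q + 2 * q ^ 3 := by simp [val_mk]
  have h7 : (⟨16, 0, -2, 0⟩ : PD).val q = 1 / 2 - 2 * q ^ 3 := by simp [val_mk]; ring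
  have h8 : (⟨16, 0, -1, 0⟩ : PD).val q = 1 / 2 - q ^ 3 := by simp [val_mk]; ring
  have h9 : (⟨32, 0, 1, 0⟩ : PD).val q = 1 + q ^ 3 := by simp [val_mk]
  have h10 : (⟨4, 0, -1, 0⟩ : PD).val q = 4 / 32 - q ^ 3 := by simp [val_mk]; ring
  have h11 : (⟨4, 0, 0, 0⟩ : PD).val q = 4 / 32 := by simp [val_mk]
  have h12 : (⟨4, 0, 1, 0⟩ : PD).val q = 4 / 32 + q ^ 3 := by simp [val_mk]
  have h13 : (⟨16, 0, 1, 0⟩ : PD).val q = 1 / 2 + q ^ 3 := by simp [val_mk]; ring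
  have h14 : (⟨16, 0, 2, 0⟩ : PD).val q = 1 / 2 + 2 * q ^ 3 := by simp [val_mk]; ring
  cases t with
  | flat a o =>
    unfold topPD Top.pts
    simp only [List.map_append, tentPD_val, marks_val, List.map_cons, List.map_nil, vv,
      h0, h1, h2, h3, h4]
  | portL σ =>
    unfold topPD Top.pts
    simp only [List.map_append, tentPD_val, marks_val, List.map_cons, List.map_nil, vv,
      h0, h1, h5, h6, h7, h8, h9]
  | portR σ =>
    unfold topPD Top.pts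
    simp only [List.map_append, tentPD_val, marks_val, List.map_cons, List.map_nil, vv,
      h0, h4, h5, h6, h9, h10, h11, h12, h13, h14, pivPD_val]

/-! ### The container -/

theorem oD_val (m : ℕ) : oD.val m = shift m := by
  unfold oD Dsc.val shift
  push_cast
  ring

theorem rD_val (m : ℕ) : rD.val m = shift m + qq m ^ 4 := by
  unfold rD Dsc.val shift
  push_cast
  ring

theorem lD_val (m : ℕ) : lD.val m = shift m - qq m ^ 4 := by
  unfold lD Dsc.val shift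
  push_cast
  ring

theorem dPoly_append (m : ℕ) (L L' : List (Dsc × Dsc)) :
    dPoly m (L ++ L') = dPoly m L ++ dPoly m L' := by
  unfold dPoly
  exact List.map_append

theorem dPoly_reverse (m : ℕ) (L : List (Dsc × Dsc)) :
    dPoly m L.reverse = (dPoly m L).reverse := by
  unfold dPoly
  exact List.map_reverse

theorem dPoly_flatMap (m : ℕ) {α : Type} (l : List α) (f : α → List (Dsc × Dsc)) :
    dPoly m (l.flatMap f) = l.flatMap fun x => dPoly m (f x) := by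
  unfold dPoly
  exact List.map_flatMap

theorem tr_append (m : ℕ) (L L' : Polygon) :
    translate m (L ++ L') = translate m L ++ translate m L' := by
  unfold Helper2_Pack.translate
  exact List.map_append

theorem tr_reverse (m : ℕ) (L : Polygon) : translate m L.reverse = (translate m L).reverse := by
  unfold Helper2_Pack.translate
  exact List.map_reverse

theorem tr_flatMap (m : ℕ) {α : Type} (l : List α) (f : α → Polygon) :
    translate m (l.flatMap f) = l.flatMap fun x => translate m (f x) := by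
  unfold Helper2_Pack.translate
  exact List.map_flatMap

theorem flatMap_congr' {α β : Type*} {l : List α} {f g : α → List β} (h : ∀ x ∈ l, f x = g x) :
    l.flatMap f = l.flatMap g := by
  induction l with
  | nil => rfl
  | cons a l ih =>
    rw [List.flatMap_cons, List.flatMap_cons, h a (by simp), ih (fun x hx => h x (by simp [hx]))]

theorem cont_eq (m : ℕ) (G : Layout) (hG : G.OK) : G.contPoly m =
    dPoly m (contD (fun a => dd (floorPD a)) (fun t => dd (topPD t)) G) := by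
  unfold Layout.contPoly contD Layout.floorPts Layout.rightPts Layout.ceilPts Layout.leftPts
  simp only [dPoly_append, dPoly_reverse, dPoly_flatMap, tr_append, tr_reverse, tr_flatMap]
  have hM : translate m [((G.M : ℚ), 0)] = dPoly m [(oD.sh G.M, oD)] := by
    simp only [Helper2_Pack.translate, dPoly, List.map_cons, List.map_nil, sh_val, oD_val]
    congr 2 <;> ring
  have hMN : translate m [((G.M : ℚ), (G.N : ℚ))] = dPoly m [(oD.sh G.M, oD.sh G.N)] := by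
    simp only [Helper2_Pack.translate, dPoly, List.map_cons, List.map_nil, sh_val, oD_val]
    congr 2 <;> ring
  have h0 : translate m [(0, 0)] = dPoly m [(oD, oD)] := by
    simp only [Helper2_Pack.translate, dPoly, List.map_cons, List.map_nil, oD_val]
    congr 2 <;> ring
  have hF : (List.range G.M).flatMap (fun c : ℕ => translate m (place c 0
      (tentPts 0 ((G.ty c 0).bot.marks.map fun p : ℕ => ((p : ℚ) / 32, qq m))))) =
      (List.range G.M).flatMap (fun c : ℕ => dPoly m ((dd (floorPD (G.ty c 0).bot)).map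
        fun d => (d.1.sh c, d.2))) := by
    apply flatMap_congr'
    intro c _
    rw [← floorPD_val, ← dPoly_place (floorPD_good _)]
    rfl
  have hC : (List.range G.M).flatMap (fun c : ℕ => translate m (place c G.N
      ((G.top c).pts (qq m)))) =
      (List.range G.M).flatMap (fun c : ℕ => dPoly m ((dd (topPD (G.top c))).map
        fun d => (d.1.sh c, d.2.sh G.N))) := by
    apply flatMap_congr'
    intro c hc
    rw [← topPD_val, ← dPoly_place (topPD_good _ ?_)]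
    intro a o h
    exact (hG.flat c a o (List.mem_range.mp hc) h).2
  have hR : (List.range G.n).flatMap (fun i : ℕ => translate m [((G.M : ℚ), 2 * (i : ℚ) + 1),
      (G.M + qq m ^ 4, 2 * (i : ℚ) + 1), (G.M + qq m ^ 4, 2 * (i : ℚ) + 2),
      ((G.M : ℚ), 2 * (i : ℚ) + 2)]) =
      (List.range G.n).flatMap (fun i : ℕ => dPoly m [(oD.sh G.M, oD.sh (2 * i + 1)),
        (rD.sh G.M, oD.sh (2 * i + 1)), (rD.sh G.M, oD.sh (2 * i + 2)),
        (oD.sh G.M, oD.sh (2 * i + 2))]) := by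
    apply flatMap_congr'
    intro i _
    simp only [Helper2_Pack.translate, dPoly, List.map_cons, List.map_nil, sh_val, oD_val, rD_val]
    push_cast
    simp only [List.cons.injEq, Prod.mk.injEq, and_true]
    refine ⟨⟨?_, ?_⟩, ⟨?_, ?_⟩, ⟨?_, ?_⟩, ⟨?_, ?_⟩⟩ <;> ring
  have hL : (List.range G.n).flatMap (fun i : ℕ => translate m [((0 : ℚ), 2 * (i : ℚ) + 1),
      (-qq m ^ 4, 2 * (i : ℚ) + 1), (-qq m ^ 4, 2 * (i : ℚ) + 2),
      ((0 : ℚ), 2 * (i : ℚ) + 2)]) =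
      (List.range G.n).flatMap (fun i : ℕ => dPoly m [(oD, oD.sh (2 * i + 1)),
        (lD, oD.sh (2 * i + 1)), (lD, oD.sh (2 * i + 2)), (oD, oD.sh (2 * i + 2))]) := by
    apply flatMap_congr'
    intro i _
    simp only [Helper2_Pack.translate, dPoly, List.map_cons, List.map_nil, sh_val, oD_val, lD_val]
    push_cast
    simp only [List.cons.injEq, Prod.mk.injEq, and_true]
    refine ⟨⟨?_, ?_⟩, ⟨?_, ?_⟩, ⟨?_, ?_⟩, ⟨?_, ?_⟩⟩ <;> ring
  rw [h0, hM, hMN, hF, hC, hR, hL]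

/-- T2 -/
theorem t2 : T2Stmt :=
  ⟨fun s => dd (shpPD s), fun a => dd (floorPD a), fun t => dd (topPD t),
    fun s => dd_ok (shpPD_good s), fun a => dd_ok (floorPD_good a),
    fun t h => dd_ok (topPD_good t h), poly_eq, cont_eq⟩

end Pool.Agent.Helper55_Pack
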