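import Pool.Agent.Helper2_Pack.StmtsT

/-! # T5 and T9: reading the word of a system, the parameter -/

namespace Pool.Agent.Helper55_Pack

open Pool.Agent.Helper2_Pack

theorem runsAux_ticks (k i : ℕ) (w : List SLetter) :
    runsAux k (List.replicate i .tick ++ .sep :: w) = (k + i) :: runsAux 0 w := by
  induction i generalizing k with
  | zero => rfl
  | succ i ih =>
    rw [List.replicate_succ, List.cons_append, runsAux, ih]
    congr 1
    omega

theorem runsAux_encIdx (i : ℕ) (w : List SLetter) :
    runsAux 0 (encIdx i ++ w) = i :: runsAux 0 w := by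
  unfold encIdx
  rw [List.append_assoc, List.singleton_append, runsAux_ticks, zero_add]

theorem runsAux_idxs (I : List ℕ) (w : List SLetter) :
    runsAux 0 (I.flatMap encIdx ++ w) = I ++ runsAux 0 w := by
  induction I with
  | nil => rfl
  | cons i I ih => rw [List.flatMap_cons, List.append_assoc, runsAux_encIdx, ih, List.cons_append]

theorem conOf_enc {n : ℕ} {c : Con} (h : c.WF n) : conOf c.enc = c := by
  cases c with
  | sum I κ =>
    obtain ⟨_, _, _, _, hκ⟩ := h
    unfold conOf Con.enc
    rcases hκ with rfl | rfl | rfl
    · simp only [if_true, List.getLast?_append, List.getLast?_singleton, Option.some_or,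
        runsAux_idxs]
      simp [runsAux]
    · simp only [List.getLast?_append, List.getLast?_singleton, Option.some_or,
        runsAux_idxs]
      simp [runsAux]
    · simp only [List.getLast?_append, List.getLast?_singleton, Option.some_or,
        runsAux_idxs]
      simp [runsAux]
  | inv i j =>
    have e : (Helper2_Pack.Con.inv i j).enc = encIdx i ++ (encIdx j ++ [.inv]) := by
      simp [Con.enc]
    have e1 : (Helper2_Pack.Con.inv i j).enc.getLast? = some .inv := by
      rw [e]
      simp
    have e2 : runsAux 0 (Helper2_Pack.Con.inv i j).enc = [i, j] := by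
      rw [e, runsAux_encIdx, runsAux_encIdx]
      rfl
    unfold conOf
    rw [e1, e2]
    rfl

theorem segsAux_pre (u v w : List SLetter) (hv : ∀ a ∈ v, isEnd a = false) :
    segsAux u (v ++ w) = segsAux (u ++ v) w := by
  induction v generalizing u with
  | nil => simp
  | cons a v ih =>
    rw [List.cons_append, segsAux, hv a (by simp), if_neg (by simp),
      ih _ (fun b hb => hv b (by simp [hb])), List.append_assoc, List.singleton_append]

theorem encIdx_noEnd (i : ℕ) : ∀ a ∈ encIdx i, isEnd a = false := by
  intro a ha
  unfold encIdx at ha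
  rw [List.mem_append] at ha
  rcases ha with ha | ha
  · rw [List.eq_of_mem_replicate ha]
    rfl
  · rw [List.mem_singleton.mp ha]
    rfl

theorem con_enc_split (c : Con) : ∃ v e, c.enc = v ++ [e] ∧ (∀ a ∈ v, isEnd a = false) ∧
    isEnd e = true := by
  cases c with
  | sum I κ =>
    refine ⟨I.flatMap encIdx, _, rfl, ?_, ?_⟩
    · intro a ha
      obtain ⟨i, _, hi⟩ := List.mem_flatMap.mp ha
      exact encIdx_noEnd i a hi
    · split_ifs <;> rfl
  | inv i j =>
    refine ⟨encIdx i ++ encIdx j, .inv, rfl, ?_, rfl⟩
    intro a ha
    rcases List.mem_append.mp ha with ha | ha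
    · exact encIdx_noEnd i a ha
    · exact encIdx_noEnd j a ha

theorem segsAux_cons (c : Con) (w : List SLetter) :
    segsAux [] (c.enc ++ w) = c.enc :: segsAux [] w := by
  obtain ⟨v, e, h1, h2, h3⟩ := con_enc_split c
  rw [h1, List.append_assoc, segsAux_pre _ _ _ h2, List.nil_append, List.singleton_append, segsAux,
    if_pos h3]

theorem segsAux_all (l : List Con) : segsAux [] (l.flatMap Con.enc) = l.map Con.enc := by
  induction l with
  | nil => rfl
  | cons c l ih => rw [List.flatMap_cons, segsAux_cons, ih, List.map_cons]

theorem nOf_enc (n : ℕ) (w : List SLetter) :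
    nOf (List.replicate n .tick ++ .stop :: w) = n := by
  unfold nOf
  induction n with
  | zero => rfl
  | succ n ih =>
    rw [List.replicate_succ, List.cons_append, List.takeWhile_cons]
    simp

theorem bodyOf_enc (n : ℕ) (w : List SLetter) :
    bodyOf (List.replicate n .tick ++ .stop :: w) = w := by
  unfold bodyOf
  induction n with
  | zero => rfl
  | succ n ih =>
    rw [List.replicate_succ, List.cons_append, List.dropWhile_cons]
    simp

/-- T5 -/
theorem t5 : T5Stmt := by
  rintro ⟨n, cons⟩ ⟨_, hc⟩
  unfold sysOfWord SInst.enc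
  simp only [nOf_enc, bodyOf_enc, segsAux_all, List.map_map]
  congr 1
  conv_rhs => rw [← List.map_id cons]
  apply List.map_congr_left
  intro c hcc
  exact conOf_enc (hc c hcc)

theorem enc_length_pos (c : Con) : 1 ≤ c.enc.length := by
  obtain ⟨v, e, h1, _⟩ := con_enc_split c
  rw [h1]
  simp

theorem enc_length (S : SInst) : S.n + 1 + S.cons.length ≤ S.enc.length := by
  unfold SInst.enc
  rw [List.length_append, List.length_replicate, List.length_cons, List.length_flatMap]
  have : S.cons.length ≤ (S.cons.map (fun c => c.enc.length)).sum := by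
    induction S.cons with
    | nil => simp
    | cons c l ih =>
      rw [List.length_cons, List.map_cons, List.sum_cons]
      have := enc_length_pos c
      omega
  omega

theorem card_cell (G : Layout) : G.K ≤ G.M * G.N + G.M := by
  unfold Layout.K Cell
  rw [Fintype.card_sum, Fintype.card_prod, Fintype.card_fin, Fintype.card_fin]
  have : Fintype.card {c : Fin G.M // (G.top c).isL = true} ≤ G.M := by
    calc _ ≤ Fintype.card (Fin G.M) := Fintype.card_subtype_le _
      _ = G.M := Fintype.card_fin _
  omega

/-- T9 -/
theorem t9 : T9Stmt := by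
  intro S _
  have h1 := enc_length S
  have h2 := card_cell S.layout
  set l := S.enc.length with hl
  have hM : S.layout.M = 2 * S.cons.length * (2 * S.n + 2) := rfl
  have hN : S.layout.N = 2 * S.n + 1 := rfl
  rw [hM, hN] at h2
  have h3 : 2 * S.cons.length * (2 * S.n + 2) * (2 * S.n + 1) +
      2 * S.cons.length * (2 * S.n + 2) = 2 * S.cons.length * (2 * S.n + 2) ^ 2 := by ring
  rw [h3] at h2
  have h4 : 2 * S.cons.length * (2 * S.n + 2) ^ 2 ≤ 2 * l * (2 * l + 2) ^ 2 := by
    apply Nat.mul_le_mul
    · omega
    · apply Nat.pow_le_pow_left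
      omega
  unfold mOf
  have h5 : 16 * l * (2 * l + 2) ^ 2 = 8 * (2 * l * (2 * l + 2) ^ 2) := by ring
  rw [h5]
  omega

end Pool.Agent.Helper55_Pack
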