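import Pool.Agent.Helper2_Pack.StmtsT
import Pool.Agent.Helper55_Pack.T2
import Pool.Agent.Helper55_Pack.T5

/-! # Time: the instance can be written down in polynomial time -/

namespace Pool.Agent.Helper55_Pack

open Pool.Agent.Helper2_Pack
open Pool.Agent.Helper53_CookLevin Pool.Agent.Helper53_Chan Pool.Agent.Helper32_Poly Turing

theorem sh_ok {d : Dsc} (h : d.OK) (k : ℕ) : (d.sh k).OK := by
  obtain ⟨h1, h2⟩ := h
  exact ⟨by unfold Dsc.sh; dsimp only; omega, h2⟩

theorem oD_ok : oD.OK := by decide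
theorem rD_ok : rD.OK := by decide
theorem lD_ok : lD.OK := by decide

theorem contD_ok {fD : Col → List (Dsc × Dsc)} {cD : Top → List (Dsc × Dsc)} {G : Layout}
    (hf : ∀ a, ∀ d ∈ fD a, d.1.OK ∧ d.2.OK)
    (hc : ∀ t, (∀ a o, t = .flat a o → o = -1 ∨ o = 0 ∨ o = 1) → ∀ d ∈ cD t, d.1.OK ∧ d.2.OK)
    (hG : G.OK) : ∀ d ∈ contD fD cD G, d.1.OK ∧ d.2.OK := by
  intro d hd
  unfold contD at hd
  simp only [List.mem_append, List.mem_reverse, List.mem_flatMap,
    List.mem_map, List.mem_cons, List.not_mem_nil, or_false] at hd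
  rcases hd with (((((rfl | ⟨c, _, e, he, rfl⟩) | rfl) | ⟨i, _, rfl | rfl | rfl | rfl⟩) |
    (⟨c, hcM, e, he, rfl⟩ | rfl)) | ⟨i, _, rfl | rfl | rfl | rfl⟩)
  · exact ⟨oD_ok, oD_ok⟩
  · exact ⟨sh_ok (hf _ _ he).1 _, (hf _ _ he).2⟩
  · exact ⟨sh_ok oD_ok _, oD_ok⟩
  · exact ⟨sh_ok oD_ok _, sh_ok oD_ok _⟩
  · exact ⟨sh_ok rD_ok _, sh_ok oD_ok _⟩
  · exact ⟨sh_ok rD_ok _, sh_ok oD_ok _⟩
  · exact ⟨sh_ok oD_ok _, sh_ok oD_ok _⟩
  · have := hc _ (fun a o h => (hG.flat c a o (List.mem_range.mp hcM) h).2) e he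
    exact ⟨sh_ok this.1 _, sh_ok this.2 _⟩
  · exact ⟨sh_ok oD_ok _, sh_ok oD_ok _⟩
  · exact ⟨oD_ok, sh_ok oD_ok _⟩
  · exact ⟨lD_ok, sh_ok oD_ok _⟩
  · exact ⟨lD_ok, sh_ok oD_ok _⟩
  · exact ⟨oD_ok, sh_ok oD_ok _⟩

theorem encPolygon_dPoly (hT1 : T1Stmt) {m : ℕ} (hm : 60 ≤ m) {l : List (Dsc × Dsc)}
    (hl : ∀ d ∈ l, d.1.OK ∧ d.2.OK) : encPolygon (dPoly m l) = dWord m l := by
  unfold encPolygon dPoly dWord
  rw [List.flatMap_map]
  congr 1
  apply flatMap_congr'
  intro d hd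
  rw [hT1 m d.1 hm (hl d hd).1, hT1 m d.2 hm (hl d hd).2]

/-- letters of instances -/
def toL : CL → List Letter
  | .inl _ => []
  | .inr a => [a]

theorem toL_map (w : List Letter) : (w.map (Sum.inr : Letter → CL)).flatMap toL = w := by
  induction w with
  | nil => rfl
  | cons a w ih => rw [List.map_cons, List.flatMap_cons, ih]; rfl

theorem getLeft_map (w : List SLetter) :
    (w.map (Sum.inl : SLetter → CL)).filterMap Sum.getLeft? = w := by
  induction w with
  | nil => rfl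
  | cons a w ih => rw [List.map_cons, List.filterMap_cons, ih]; rfl

/-- Time -/
theorem time (hU1 : U1Stmt) (hT1 : T1Stmt) (hT2 : T2Stmt) (hT5 : T5Stmt) (hT9 : T9Stmt)
    (hT10 : T10Stmt) (hT11 : T11Stmt) : TimeStmt := by
  obtain ⟨sD, fD, cD, hs, hf, hc, hpoly, hcont⟩ := hT2
  refine ⟨fun S => mOf S.1.enc.length, fun S => hT9 S.1 S.2, ?_⟩
  let _ : Inhabited CL := ⟨Sum.inl .tick⟩
  have c1 : TM2ComputableInPolyTime (fun S : WInst => S.1.enc) (id : List CL → List CL)
      (fun S => S.1.enc.map Sum.inl) :=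
    morphComputable (fun S : WInst => S.1.enc) id _ [] (fun b => [Sum.inl b]) (fun S => by
      change S.1.enc.map Sum.inl = [] ++ S.1.enc.flatMap (fun b => [Sum.inl b])
      rw [List.nil_append]
      induction S.1.enc with
      | nil => rfl
      | cons b x ih => rw [List.map_cons, List.flatMap_cons, ih]; rfl)
  obtain ⟨c2⟩ := pgen_computable _ (PGen.append (hT10 fD cD) (hT11 sD))
  have c3 : TM2ComputableInPolyTime (id : List CL → List CL) (fun w : List Letter => w)
      (fun w => w.flatMap toL) :=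
    morphComputable id (fun w => w) _ [] toL (fun w => by
      rw [List.nil_append]
      rfl)
  obtain ⟨c4⟩ := TM2ComputableInPolyTime.comp c1 c2
  obtain ⟨c5⟩ := TM2ComputableInPolyTime.comp c4 c3
  refine ⟨⟨c5.toTM2ComputableAux, c5.time, fun S => ?_⟩⟩
  have h := c5.outputsFun S
  have e : (((fun w : List CL => w.flatMap toL) ∘ ((fun w : List CL =>
      (dWord (mOf ((![w] : Fin 1 → List CL) 0).length)
        (contD fD cD (sysAt (![w] : Fin 1 → List CL)).layout)).map Sum.inr ++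
      ((sysAt (![w] : Fin 1 → List CL)).layout.shapes.flatMap fun s =>
        dWord (mOf ((![w] : Fin 1 → List CL) 0).length) (sD s)).map Sum.inr) ∘
      fun S : WInst => S.1.enc.map Sum.inl)) S) =
      (inst (mOf S.1.enc.length) S.1.layout).enc := by
    have hsys : sysAt (![S.1.enc.map Sum.inl] : Fin 1 → List CL) = S.1 := by
      unfold sysAt
      rw [show (![S.1.enc.map Sum.inl] : Fin 1 → List CL) 0 = S.1.enc.map Sum.inl from rfl,
        getLeft_map]
      exact hT5 S.1 S.2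
    have hG : S.1.layout.OK := hU1 S.1 S.2
    have hm : 60 ≤ mOf S.1.enc.length := by
      unfold mOf
      omega
    change ((dWord (mOf (S.1.enc.map (Sum.inl : SLetter → CL)).length)
        (contD fD cD (sysAt (![S.1.enc.map Sum.inl] : Fin 1 → List CL)).layout)).map Sum.inr ++
      ((sysAt (![S.1.enc.map Sum.inl] : Fin 1 → List CL)).layout.shapes.flatMap fun s =>
        dWord (mOf (S.1.enc.map (Sum.inl : SLetter → CL)).length) (sD s)).map Sum.inr).flatMap
          toL = _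
    rw [hsys, List.length_map, List.flatMap_append, toL_map, toL_map]
    unfold inst Instance.enc
    rw [hcont _ _ hG, encPolygon_dPoly hT1 hm (contD_ok hf hc hG), List.flatMap_map]
    congr 1
    apply flatMap_congr'
    intro s _
    rw [hpoly, encPolygon_dPoly hT1 hm (hs s)]
  rw [e] at h
  exact h

end Pool.Agent.Helper55_Pack
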